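import Mathlib

set_option autoImplicit false

namespace Pool.Agent.MP_88e4f4_nt.TE

/-- Density of the primes `q` with `gcd (r, q (q - 1)) = 1`. -/
noncomputable def dl (r : ℕ) : ℝ := ∏ p ∈ r.primeFactors, (1 - 1 / ((p : ℝ) - 1))

/-- The von Mangoldt function on the numbers `n` with `gcd (r, n (n - 1)) = 1`. -/
noncomputable def LG (r n : ℕ) : ℝ :=
  if Nat.Coprime r (n * (n - 1)) then ArithmeticFunction.vonMangoldt n else 0

end Pool.Agent.MP_88e4f4_nt.TE
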