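import Pool.Agent.MP_88e4f4_nt.TE.Defs

set_option autoImplicit false

namespace Pool.Agent.MP_88e4f4_nt.TE

open ArithmeticFunction.vonMangoldt Complex

/-- Upper bound for the Dirichlet series of a residue class near `1`. -/
theorem upper_bound {q : ℕ} [NeZero q] {a : ZMod q} (ha : IsUnit a) :
    ∃ C : ℝ, ∀ {x : ℝ} (_ : x ∈ Set.Ioc 1 2),
      ∑' n, residueClass a n / (n : ℝ) ^ x ≤ (q.totient : ℝ)⁻¹ / (x - 1) + C := by
  have H {x : ℝ} (hx : 1 < x) :
      ∑' n, residueClass a n / (n : ℝ) ^ x =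
        (LFunctionResidueClassAux a x).re + (q.totient : ℝ)⁻¹ / (x - 1) := by
    refine ofReal_injective ?_
    simp only [ofReal_tsum, ofReal_div, ofReal_cpow (Nat.cast_nonneg _), ofReal_natCast,
      ofReal_add, ofReal_inv, ofReal_sub, ofReal_one]
    simp_rw [← LFunctionResidueClassAux_real ha hx,
      eqOn_LFunctionResidueClassAux ha <| Set.mem_ofPred.mpr (ofReal_re x ▸ hx), sub_add_cancel,
      LSeries, LSeries.term]
    refine tsum_congr fun n ↦ ?_
    split_ifs with hn
    · simp only [hn, residueClass_apply_zero, ofReal_zero, zero_div]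
    · rfl
  have : ContinuousOn (fun x : ℝ ↦ (LFunctionResidueClassAux a x).re) (Set.Icc 1 2) :=
    continuous_re.continuousOn.comp (t := Set.univ) (continuousOn_LFunctionResidueClassAux a)
      (fun ⦃x⦄ a ↦ trivial) |>.comp continuous_ofReal.continuousOn fun x hx ↦ by
        simpa only [Set.mem_ofPred_eq, ofReal_re] using hx.1
  obtain ⟨C, hC⟩ := bddAbove_def.mp <| IsCompact.bddAbove_image isCompact_Icc this
  replace hC {x : ℝ} (hx : x ∈ Set.Icc 1 2) : (LFunctionResidueClassAux a x).re ≤ C :=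
    hC (LFunctionResidueClassAux a x).re <|
      Set.mem_image_of_mem (fun x : ℝ ↦ (LFunctionResidueClassAux a x).re) hx
  refine ⟨C, fun {x} hx ↦ ?_⟩
  rw [H hx.1, add_comm]
  exact add_le_add_right (hC <| Set.mem_Icc_of_Ioc hx) _

end Pool.Agent.MP_88e4f4_nt.TE
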