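import Pool.Agent.MP_88e4f4_nt.TE.Defs

set_option autoImplicit false

namespace Pool.Agent.MP_88e4f4_nt.TE

open ArithmeticFunction

/-- The weight of the prime powers `n` whose prime divides `m - 1` or is `1` modulo a prime factor of
`m - 1`. -/
noncomputable def wt (m n : ℕ) : ℝ :=
  ∑ p ∈ (m - 1).primeFactors,
    ((if n % p = 1 then vonMangoldt n else 0) + (if p ∣ n then vonMangoldt n else 0))

theorem wt_nonneg (m n : ℕ) : 0 ≤ wt m n := by
  refine Finset.sum_nonneg fun p _ => add_nonneg ?_ ?_ <;> split_ifs <;>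
    first | exact vonMangoldt_nonneg | exact le_rfl

/-- [TE-E8] PROOF. `g` is the product of `q ^ v_q(y)` over the prime factors `q` of `y` with
`gcd (m - 1, q (q - 1)) = 1`. Then `log y - log g = ∑ v_q(y) log q` over the other prime factors
`q` of `y`, and for such a `q` and `1 ≤ j ≤ v_q(y)` the divisor `n = q ^ j` of `y` has
`wt m n ≥ log q`: either some prime `p` divides `m - 1` and `q` (then `p = q`, `p ∣ n`), or some
prime `p` divides `m - 1` and `q - 1` (then `n % p = 1`, as `p ≥ 2`). All terms are `≥ 0`. -/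
theorem markov_div (m y : ℕ) (hy : y ≠ 0) (hm : 2 ≤ m) : ∃ g : ℕ, g ∣ y ∧
    (∀ q : ℕ, q.Prime → q ∣ g → Nat.Coprime (m - 1) (q * (q - 1))) ∧
    Real.log y - Real.log g ≤ ∑ n ∈ y.divisors, wt m n := by
  classical
  obtain ⟨g, hg⟩ : ∃ g : ℕ, g = ∏ q ∈ y.primeFactors.filter
      (fun q => Nat.Coprime (m - 1) (q * (q - 1))), q ^ y.factorization q := ⟨_, rfl⟩
  have hgy : g ∣ y := by
    have e : y = ∏ q ∈ y.primeFactors, q ^ y.factorization q :=
      (Nat.prod_factorization_pow_eq_self hy).symm
    rw [hg]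
    conv_rhs => rw [e]
    exact Finset.prod_dvd_prod_of_subset _ _ _ (Finset.filter_subset _ _)
  refine ⟨g, hgy, ?_, ?_⟩
  · intro q hq hqg
    rw [hg, Prime.dvd_finsetProd_iff hq.prime] at hqg
    obtain ⟨a, ha, hqa⟩ := hqg
    rw [Finset.mem_filter] at ha
    have hqa' := hq.dvd_of_dvd_pow hqa
    have hap := Nat.prime_of_mem_primeFactors ha.1
    have : q = a := (Nat.prime_dvd_prime_iff_eq hq hap).1 hqa'
    rw [this]
    exact ha.2
  · rw [← vonMangoldt_sum, ← vonMangoldt_sum]
    have hsub : g.divisors ⊆ y.divisors := Nat.divisors_subset_of_dvd hy hgy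
    rw [← Finset.sum_sdiff hsub, add_sub_cancel_right]
    refine le_trans (Finset.sum_le_sum (g := fun n => wt m n) ?_)
      (Finset.sum_le_sum_of_subset_of_nonneg Finset.sdiff_subset fun n _ _ => wt_nonneg m n)
    intro n hn
    rw [Finset.mem_sdiff] at hn
    obtain ⟨hn1, hn2⟩ := hn
    have hny : n ∣ y := Nat.dvd_of_mem_divisors hn1
    by_cases h0 : vonMangoldt n = 0
    · rw [h0]
      exact wt_nonneg m n
    · have h0 := vonMangoldt_ne_zero_iff.1 h0
      obtain ⟨q, j, hq, hj, hqj⟩ := h0
      have hqp : q.Prime := Nat.prime_iff.2 hq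
      have hqn : q ∣ n := by
        rw [← hqj]
        exact dvd_pow_self q hj.ne'
      have hqy : q ∣ y := hqn.trans hny
      have hbad : ¬ Nat.Coprime (m - 1) (q * (q - 1)) := by
        intro hgood
        apply hn2
        rw [Nat.mem_divisors]
        refine ⟨?_, fun h => hy (by rw [h] at hgy; exact Nat.eq_zero_of_zero_dvd hgy)⟩
        have hle : j ≤ y.factorization q := by
          rw [← hqp.pow_dvd_iff_le_factorization hy, hqj]
          exact hny
        rw [← hqj]
        refine (pow_dvd_pow q hle).trans ?_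
        rw [hg]
        exact Finset.dvd_prod_of_mem (fun q => q ^ y.factorization q)
          (Finset.mem_filter.2 ⟨Nat.mem_primeFactors.2 ⟨hqp, hqy, hy⟩, hgood⟩)
      rw [Nat.Prime.not_coprime_iff_dvd] at hbad
      obtain ⟨p, hp, hpm, hpq⟩ := hbad
      have hpS : p ∈ (m - 1).primeFactors := Nat.mem_primeFactors.2 ⟨hp, hpm, by omega⟩
      have hterm : vonMangoldt n ≤ (if n % p = 1 then vonMangoldt n else 0) +
          (if p ∣ n then vonMangoldt n else 0) := by
        have hn0 : (0 : ℝ) ≤ vonMangoldt n := vonMangoldt_nonneg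
        rcases (Nat.Prime.dvd_mul hp).1 hpq with h | h
        · rw [if_pos (h.trans hqn)]
          split_ifs <;> linarith
        · have hnp : n % p = 1 := by
            have e1 : 1 ≡ q [MOD p] := (Nat.modEq_iff_dvd' hqp.one_lt.le).2 h
            have e2 : 1 ^ j ≡ q ^ j [MOD p] := e1.pow j
            rw [one_pow, hqj] at e2
            have e3 : 1 % p = n % p := e2
            rw [← e3, Nat.mod_eq_of_lt hp.one_lt]
          rw [if_pos hnp]
          split_ifs <;> linarith
      refine hterm.trans ?_
      unfold wt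
      refine Finset.single_le_sum (f := fun p => (if n % p = 1 then vonMangoldt n else 0) +
          (if p ∣ n then vonMangoldt n else 0)) ?_ hpS
      intro p _
      refine add_nonneg ?_ ?_ <;> split_ifs <;>
        first | exact vonMangoldt_nonneg | exact le_rfl

end Pool.Agent.MP_88e4f4_nt.TE
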