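import Pool.Agent.MP_88e4f4_nt.TE.E2
import Pool.Agent.MP_88e4f4_nt.TE.E8

set_option autoImplicit false

namespace Pool.Agent.MP_88e4f4_nt.TE

open ArithmeticFunction ArithmeticFunction.vonMangoldt Finset

/-- Partial sums over a residue class. -/
theorem class_sum {q : ℕ} [NeZero q] {a : ZMod q} (ha : IsUnit a) : ∃ C : ℝ, ∀ Y : ℕ, 3 ≤ Y →
    ∑ n ∈ Icc 1 Y, residueClass a n / (n : ℝ) ≤
      Real.exp 1 * (q.totient : ℝ)⁻¹ * Real.log Y + C := by
  obtain ⟨C, hC⟩ := upper_bound ha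
  refine ⟨Real.exp 1 * C, fun Y hY => ?_⟩
  obtain ⟨L, hL⟩ : ∃ L, L = Real.log Y := ⟨_, rfl⟩
  have hY3 : (3 : ℝ) ≤ Y := by exact_mod_cast hY
  have hL1 : 1 ≤ L := by
    rw [hL, Real.le_log_iff_exp_le (by linarith)]
    have := Real.exp_one_lt_d9
    linarith
  have hL0 : 0 < L := by linarith
  have hx : (1 : ℝ) + 1 / L ∈ Set.Ioc (1 : ℝ) 2 := by
    have h1 : 0 < 1 / L := by positivity
    have h2 : 1 / L ≤ 1 := by
      rw [div_le_one hL0]
      exact hL1
    exact ⟨by linarith, by linarith⟩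
  have hterm : ∀ n ∈ Icc 1 Y, residueClass a n / (n : ℝ) ≤
      Real.exp 1 * (residueClass a n / (n : ℝ) ^ (1 + 1 / L)) := by
    intro n hn
    rw [mem_Icc] at hn
    have hn0 : (0 : ℝ) < n := by exact_mod_cast hn.1
    have hr := residueClass_nonneg a n
    have h1 : (n : ℝ) ^ (1 + 1 / L) ≤ Real.exp 1 * n := by
      rw [Real.rpow_add hn0, Real.rpow_one, mul_comm]
      refine mul_le_mul_of_nonneg_right ?_ hn0.le
      rw [Real.rpow_def_of_pos hn0]
      refine Real.exp_le_exp.2 ?_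
      rw [← mul_div_assoc, mul_one, div_le_one hL0, hL]
      exact Real.log_le_log hn0 (by exact_mod_cast hn.2)
    have h2 : 0 < (n : ℝ) ^ (1 + 1 / L) := Real.rpow_pos_of_pos hn0 _
    rw [← mul_div_assoc, div_le_div_iff₀ hn0 h2]
    calc residueClass a n * (n : ℝ) ^ (1 + 1 / L) ≤ residueClass a n * (Real.exp 1 * n) :=
          mul_le_mul_of_nonneg_left h1 hr
      _ = Real.exp 1 * residueClass a n * n := by ring
  refine (sum_le_sum hterm).trans ?_
  rw [← mul_sum]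
  have h3 : ∑ n ∈ Icc 1 Y, residueClass a n / (n : ℝ) ^ (1 + 1 / L) ≤
      ∑' n : ℕ, residueClass a n / (n : ℝ) ^ (1 + 1 / L) :=
    (summable_rc a hx.1).sum_le_tsum _ fun n _ => by
      have := residueClass_nonneg a n
      positivity
  have h4 := hC hx
  rw [add_sub_cancel_left] at h4
  have h5 : (q.totient : ℝ)⁻¹ / (1 / L) = (q.totient : ℝ)⁻¹ * L := by
    field_simp
  rw [h5] at h4
  rw [← hL]
  calc Real.exp 1 * ∑ n ∈ Icc 1 Y, residueClass a n / (n : ℝ) ^ (1 + 1 / L)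
      ≤ Real.exp 1 * ((q.totient : ℝ)⁻¹ * L + C) :=
        mul_le_mul_of_nonneg_left (h3.trans h4) (Real.exp_pos 1).le
    _ = Real.exp 1 * (q.totient : ℝ)⁻¹ * L + Real.exp 1 * C := by ring

theorem prime_sum {p : ℕ} (hp : p.Prime) : ∃ C : ℝ, ∀ Y : ℕ, 3 ≤ Y →
    ∑ n ∈ Icc 1 Y, (((if n % p = 1 then vonMangoldt n else 0) +
      (if p ∣ n then vonMangoldt n else 0)) / (n : ℝ)) ≤
      Real.exp 1 * (1 / ((p : ℝ) - 1)) * Real.log Y + C := by
  have : NeZero p := ⟨hp.ne_zero⟩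
  obtain ⟨C, hC⟩ := class_sum (q := p) (a := 1) isUnit_one
  obtain ⟨Cn, hCn⟩ : ∃ Cn : ℝ, Cn = ∑' n : ℕ, (if n.Prime then 0 else vonMangoldt n) / (n : ℝ) :=
    ⟨_, rfl⟩
  refine ⟨C + (vonMangoldt p / p + Cn), fun Y hY => ?_⟩
  have h1 := hC Y hY
  rw [Nat.totient_prime hp, Nat.cast_sub hp.one_lt.le, Nat.cast_one, ← one_div] at h1
  have h2 : ∀ n : ℕ, (if n % p = 1 then vonMangoldt n else 0) = residueClass (1 : ZMod p) n := by
    intro n
    rw [residueClass_eq']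
    have h3 : n % p = 1 ↔ (n : ZMod p) = 1 := by
      have h4 := ZMod.natCast_eq_natCast_iff' n 1 p
      rw [Nat.cast_one, Nat.mod_eq_of_lt hp.one_lt] at h4
      exact h4.symm
    simp only [h3]
  have h5 : ∑ n ∈ Icc 1 Y, (if p ∣ n then vonMangoldt n else 0) / (n : ℝ) ≤
      vonMangoldt p / p + Cn := by
    have h6 : ∀ n ∈ Icc 1 Y, (if p ∣ n then vonMangoldt n else 0) / (n : ℝ) ≤
        (if n = p then vonMangoldt p / (p : ℝ) else 0) +
          (if n.Prime then 0 else vonMangoldt n) / (n : ℝ) := by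
      intro n _
      have hv : (0 : ℝ) ≤ vonMangoldt n := vonMangoldt_nonneg
      by_cases hn : n = p
      · rw [if_pos hn, hn, if_pos dvd_rfl, if_pos hp]
        simp
      · rw [if_neg hn, zero_add]
        by_cases hd : p ∣ n
        · rw [if_pos hd, if_neg]
          intro hnp
          exact hn ((Nat.prime_dvd_prime_iff_eq hp hnp).1 hd).symm
        · rw [if_neg hd, zero_div]
          split_ifs
          · simp
          · positivity
    refine (sum_le_sum h6).trans ?_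
    rw [sum_add_distrib]
    refine add_le_add ?_ ?_
    · rw [sum_ite_eq']
      split_ifs
      · exact le_rfl
      · have hv : (0 : ℝ) ≤ vonMangoldt p := vonMangoldt_nonneg
        positivity
    · rw [hCn]
      refine summable_np.sum_le_tsum _ fun n _ => ?_
      have hv : (0 : ℝ) ≤ vonMangoldt n := vonMangoldt_nonneg
      split_ifs
      · simp
      · positivity
  have h7 : ∑ n ∈ Icc 1 Y, (((if n % p = 1 then vonMangoldt n else 0) +
      (if p ∣ n then vonMangoldt n else 0)) / (n : ℝ)) =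
      ∑ n ∈ Icc 1 Y, residueClass (1 : ZMod p) n / (n : ℝ) +
        ∑ n ∈ Icc 1 Y, (if p ∣ n then vonMangoldt n else 0) / (n : ℝ) := by
    rw [← sum_add_distrib]
    refine sum_congr rfl fun n _ => ?_
    rw [h2, add_div]
  rw [h7]
  linarith

/-- The sum over the prime factors of `m - 1`. -/
noncomputable def S1 (m : ℕ) : ℝ := ∑ p ∈ (m - 1).primeFactors, 1 / ((p : ℝ) - 1)

theorem wt_sum (m : ℕ) : ∃ C : ℝ, 0 ≤ C ∧ ∀ Y : ℕ, 3 ≤ Y →
    ∑ n ∈ Icc 1 Y, wt m n / (n : ℝ) ≤ Real.exp 1 * S1 m * Real.log Y + C := by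
  have h : ∀ p ∈ (m - 1).primeFactors, ∃ C : ℝ, ∀ Y : ℕ, 3 ≤ Y →
    ∑ n ∈ Icc 1 Y, (((if n % p = 1 then vonMangoldt n else 0) +
      (if p ∣ n then vonMangoldt n else 0)) / (n : ℝ)) ≤
      Real.exp 1 * (1 / ((p : ℝ) - 1)) * Real.log Y + C :=
    fun p hp => prime_sum (Nat.prime_of_mem_primeFactors hp)
  choose! C hC using h
  refine ⟨|∑ p ∈ (m - 1).primeFactors, C p|, abs_nonneg _, fun Y hY => ?_⟩
  have h1 : ∑ n ∈ Icc 1 Y, wt m n / (n : ℝ) =
      ∑ p ∈ (m - 1).primeFactors, ∑ n ∈ Icc 1 Y,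
        (((if n % p = 1 then vonMangoldt n else 0) +
          (if p ∣ n then vonMangoldt n else 0)) / (n : ℝ)) := by
    rw [sum_comm]
    refine sum_congr rfl fun n _ => ?_
    rw [wt, sum_div]
  rw [h1]
  refine (sum_le_sum fun p hp => hC p hp Y hY).trans ?_
  rw [sum_add_distrib, ← sum_mul, ← mul_sum, S1]
  have := le_abs_self (∑ p ∈ (m - 1).primeFactors, C p)
  linarith

end Pool.Agent.MP_88e4f4_nt.TE
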