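import Pool.Agent.MP_88e4f4_nt.TE.E6
import Pool.Agent.MP_88e4f4_nt.TE.E9

set_option autoImplicit false

namespace Pool.Agent.MP_88e4f4_nt.TE

open Pool.Agent.MP_88e4f4_nt.GB Pool.Agent.MP_88e4f4_nt.TK Pool.Agent.MP_88e4f4_nt.TQ Finset

/-- An exceptional base has a large bad part. -/
theorem exc_wt {m y x n : ℕ} (hm : 3200 ≤ m) (h : Sol x y m n) (hy : 12 ^ 40 ≤ y) :
    Real.log y / 2 ≤ ∑ d ∈ y.divisors, wt m d := by
  have hy2 := h.1
  obtain ⟨g, hg, hq, hlog⟩ := markov_div m y (by omega) (by omega)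
  have hg0 : g ≠ 0 := by
    rintro rfl
    have := Nat.eq_zero_of_zero_dvd hg
    omega
  have h1 : ¬ y ≤ g ^ 2 := by
    intro h2
    have h3 := y_bound_q (κ := 2) (by norm_num) (by omega) h
      (le_gcd_pow h hg (fun q hqp hqg => Or.inr (hq q hqp hqg)) h2)
    norm_num at h3 hy
    omega
  push Not at h1
  have hgpos : (0 : ℝ) < g := by exact_mod_cast Nat.pos_of_ne_zero hg0
  have h2 : Real.log ((g : ℝ) ^ 2) ≤ Real.log y :=
    Real.log_le_log (by positivity) (by exact_mod_cast h1.le)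
  rw [Real.log_pow] at h2
  push_cast at h2
  linarith

/-- Exchange of summation. -/
theorem sum_div (f : ℕ → ℝ) (hf : ∀ n, 0 ≤ f n) (Y : ℕ) :
    ∑ y ∈ Icc 1 Y, ∑ d ∈ y.divisors, f d ≤ Y * ∑ d ∈ Icc 1 Y, f d / (d : ℝ) := by
  classical
  have h1 : ∀ y ∈ Icc 1 Y, ∑ d ∈ y.divisors, f d = ∑ d ∈ Icc 1 Y, if d ∣ y then f d else 0 := by
    intro y hy
    rw [mem_Icc] at hy
    rw [← sum_filter]
    refine sum_congr ?_ fun _ _ => rfl
    ext d
    rw [Nat.mem_divisors, mem_filter, mem_Icc]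
    constructor
    · rintro ⟨h1, -⟩
      have h2 := Nat.le_of_dvd (by omega) h1
      have h3 := Nat.pos_of_dvd_of_pos h1 (by omega)
      exact ⟨⟨by omega, by omega⟩, h1⟩
    · rintro ⟨-, h1⟩
      exact ⟨h1, by omega⟩
  rw [sum_congr rfl h1, sum_comm, mul_sum]
  refine sum_le_sum fun d hd => ?_
  rw [mem_Icc] at hd
  rw [← sum_filter, sum_const, nsmul_eq_mul]
  have h2 : ((Icc 1 Y).filter (fun y => d ∣ y)).card = Y / d := by
    have h3 := Nat.Ioc_filter_dvd_card_eq_div Y d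
    rw [← h3]
    congr 1
  rw [h2]
  have h4 : ((Y / d : ℕ) : ℝ) ≤ Y / d := Nat.cast_div_le
  calc ((Y / d : ℕ) : ℝ) * f d ≤ (Y / d : ℝ) * f d := mul_le_mul_of_nonneg_right h4 (hf d)
    _ = Y * (f d / d) := by ring

theorem S1_nonneg (m : ℕ) : 0 ≤ S1 m := by
  refine sum_nonneg fun p hp => ?_
  have h1 : (1 : ℝ) < p := by exact_mod_cast (Nat.prime_of_mem_primeFactors hp).one_lt
  have : (0 : ℝ) < p - 1 := by linarith
  positivity

theorem count_two' (m : ℕ) (hm : 3200 ≤ m) (ε : ℝ) (hε : 0 < ε) : ∃ Y₀ : ℕ, ∀ Y : ℕ, Y₀ ≤ Y →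
    ((exc m Y).ncard : ℝ) ≤ (2 * Real.exp 1 * S1 m + ε) * Y := by
  classical
  obtain ⟨C, hC0, hC⟩ := wt_sum m
  obtain ⟨s, hs⟩ : ∃ s, s = 2 * Real.exp 1 * S1 m := ⟨_, rfl⟩
  have hs0 : 0 ≤ s := by
    rw [hs]
    have := S1_nonneg m
    positivity
  obtain ⟨η, hη⟩ : ∃ η, η = min (ε / 3) 1 := ⟨_, rfl⟩
  have hη0 : 0 < η := by
    rw [hη]
    exact lt_min (by positivity) (by norm_num)
  have hη3 : η ≤ ε / 3 := by
    rw [hη]
    exact min_le_left _ _
  have hη1 : η ≤ 1 := by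
    rw [hη]
    exact min_le_right _ _
  obtain ⟨c, hc⟩ : ∃ c, c = Real.log (1 / η) := ⟨_, rfl⟩
  have hc0 : 0 ≤ c := by
    rw [hc]
    exact Real.log_nonneg (by rw [one_le_div hη0]; exact hη1)
  have hT : Filter.Tendsto (fun n : ℕ => Real.log (n : ℝ)) Filter.atTop Filter.atTop :=
    Real.tendsto_log_atTop.comp tendsto_natCast_atTop_atTop
  obtain ⟨Y₁, hY₁⟩ := Filter.eventually_atTop.1 (hT.eventually_ge_atTop
    (c + 1 + (2 * C + (s + η) * c) / η))
  refine ⟨max (max Y₁ 3) (max ⌈(12 ^ 40 : ℝ) / η⌉₊ ⌈1 / η⌉₊), fun Y hY => ?_⟩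
  have hYa : Y₁ ≤ Y := (le_max_left _ _).trans ((le_max_left _ _).trans hY)
  have hYb : 3 ≤ Y := (le_max_right _ _).trans ((le_max_left _ _).trans hY)
  have hYc : (12 ^ 40 : ℝ) / η ≤ Y := (Nat.le_ceil _).trans (by
    exact_mod_cast (le_max_left _ _).trans ((le_max_right _ _).trans hY))
  have hYd : 1 / η ≤ (Y : ℝ) := (Nat.le_ceil _).trans (by
    exact_mod_cast (le_max_right _ _).trans ((le_max_right _ _).trans hY))
  obtain ⟨L, hL⟩ : ∃ L, L = Real.log Y := ⟨_, rfl⟩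
  have hLbig := hY₁ Y hYa
  rw [← hL] at hLbig
  have hY0 : (0 : ℝ) < Y := by exact_mod_cast (by omega : 0 < Y)
  have hLc : 0 < L - c := by
    have : 0 ≤ (2 * C + (s + η) * c) / η := by positivity
    linarith
  -- the large exceptional bases
  obtain ⟨E, hE⟩ : ∃ E : Finset ℕ, E = (Icc 1 Y).filter (fun y => y ∈ exc m Y ∧ η * Y ≤ y) :=
    ⟨_, rfl⟩
  have hEy : ∀ y ∈ E, (L - c) / 2 ≤ ∑ d ∈ y.divisors, wt m d := by
    intro y hy
    rw [hE, mem_filter] at hy
    obtain ⟨hy1, ⟨-, x, n, h2⟩, hy3⟩ := hy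
    have h12 : 12 ^ 40 ≤ y := by
      have h3 : ((12 : ℝ) ^ 40) ≤ y := by
        rw [div_le_iff₀ hη0] at hYc
        linarith
      exact_mod_cast h3
    refine le_trans ?_ (exc_wt hm h2 h12)
    have h4 : Real.log (η * Y) ≤ Real.log y := Real.log_le_log (by positivity) hy3
    rw [Real.log_mul hη0.ne' hY0.ne', ← hL] at h4
    have h5 : c = -Real.log η := by
      rw [hc, one_div, Real.log_inv]
    linarith
  have hsumE : (E.card : ℝ) * ((L - c) / 2) ≤ Y * (Real.exp 1 * S1 m * L + C) := by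
    calc (E.card : ℝ) * ((L - c) / 2) = ∑ _y ∈ E, (L - c) / 2 := by
          rw [sum_const, nsmul_eq_mul]
      _ ≤ ∑ y ∈ E, ∑ d ∈ y.divisors, wt m d := sum_le_sum hEy
      _ ≤ ∑ y ∈ Icc 1 Y, ∑ d ∈ y.divisors, wt m d := by
          refine sum_le_sum_of_subset_of_nonneg ?_ fun y _ _ => sum_nonneg fun d _ => wt_nonneg m d
          rw [hE]
          exact filter_subset _ _
      _ ≤ Y * ∑ d ∈ Icc 1 Y, wt m d / (d : ℝ) := sum_div _ (wt_nonneg m) Y
      _ ≤ Y * (Real.exp 1 * S1 m * L + C) := by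
          rw [hL]
          exact mul_le_mul_of_nonneg_left (hC Y hYb) hY0.le
  have hEcard : (E.card : ℝ) ≤ (s + η) * Y := by
    have h1 : Y * (Real.exp 1 * S1 m * L + C) ≤ ((s + η) * Y) * ((L - c) / 2) := by
      have h2 : s * L + 2 * C ≤ (s + η) * (L - c) := by
        have h3 : 2 * C + (s + η) * c ≤ η * L := by
          have h4 : (2 * C + (s + η) * c) / η ≤ L := by linarith
          rw [div_le_iff₀ hη0] at h4
          linarith
        linarith
      have h5 : Y * (Real.exp 1 * S1 m * L + C) = Y * ((s * L + 2 * C) / 2) := by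
        rw [hs]
        ring
      rw [h5]
      calc (Y : ℝ) * ((s * L + 2 * C) / 2) ≤ Y * (((s + η) * (L - c)) / 2) := by
            refine mul_le_mul_of_nonneg_left ?_ hY0.le
            linarith
        _ = ((s + η) * Y) * ((L - c) / 2) := by ring
    exact le_of_mul_le_mul_right (hsumE.trans h1) (by linarith)
  -- all exceptional bases
  have hsub : exc m Y ⊆ ((range (⌊η * Y⌋₊ + 1) ∪ E : Finset ℕ) : Set ℕ) := by
    intro y hy
    rw [mem_coe, mem_union]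
    by_cases h1 : η * Y ≤ y
    · right
      rw [hE, mem_filter]
      exact ⟨by simpa using exc_sub m Y hy, hy, h1⟩
    · left
      push Not at h1
      rw [mem_range, Nat.lt_succ_iff]
      exact Nat.le_floor h1.le
  have h1 := Set.ncard_le_ncard hsub (finite_toSet _)
  rw [Set.ncard_coe_finset] at h1
  have h2 := h1.trans (card_union_le _ _)
  rw [card_range] at h2
  have h3 : ((exc m Y).ncard : ℝ) ≤ (⌊η * Y⌋₊ : ℝ) + 1 + E.card := by exact_mod_cast h2
  have h4 : (⌊η * Y⌋₊ : ℝ) ≤ η * Y := Nat.floor_le (by positivity)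
  have h5 : 1 ≤ η * Y := by
    rw [div_le_iff₀ hη0] at hYd
    linarith
  calc ((exc m Y).ncard : ℝ) ≤ η * Y + η * Y + (s + η) * Y := by linarith
    _ = (s + 3 * η) * Y := by ring
    _ ≤ (s + ε) * Y := by
        refine mul_le_mul_of_nonneg_right ?_ hY0.le
        linarith
    _ = (2 * Real.exp 1 * S1 m + ε) * Y := by rw [hs]

end Pool.Agent.MP_88e4f4_nt.TE
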