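import Pool.Agent.MP_88e4f4_nt.TE.Defs

set_option autoImplicit false

namespace Pool.Agent.MP_88e4f4_nt.TE

/-- [TE-E3] PROOF. `ZMod.prodEquivPi (fun p : S => (p : ℕ))` (pairwise coprime) is a ring isomorphism
`ZMod (∏ p ∈ S, p) ≃ Π p : S, ZMod p` (use `Finset.prod_coe_sort` / `Finset.prod_attach`, a `subst` or
`ZMod.ringEquivCongr` for the index). `IsUnit` in a product is componentwise (`Pi.isUnit_iff`), so the
set corresponds to `Fintype.piFinset` of `{a : ZMod p | a ≠ 0 ∧ a - 1 ≠ 0}`, which has `p - 2`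
elements in the field `ZMod p`. -/
theorem card_U (S : Finset ℕ) (hS : ∀ p ∈ S, p.Prime) [NeZero (∏ p ∈ S, p)] :
    ((Finset.univ : Finset (ZMod (∏ p ∈ S, p))).filter
      (fun a => IsUnit a ∧ IsUnit (a - 1))).card = ∏ p ∈ S, (p - 2) := by
  have hcop : Pairwise (Function.onFun Nat.Coprime (fun p : S => (p : ℕ))) := by
    intro p q hpq
    exact (Nat.coprime_primes (hS p p.2) (hS q q.2)).2 (fun h => hpq (Subtype.ext h))
  have hprod : ∏ p ∈ S, p = ∏ p : S, (p : ℕ) := (Finset.prod_coe_sort S (fun p => p)).symm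
  have hF : ∀ p : S, Fact (Nat.Prime (p : ℕ)) := fun p => ⟨hS p p.2⟩
  have hN : ∀ p : S, NeZero (p : ℕ) := fun p => ⟨(hS p p.2).ne_zero⟩
  let Φ : ZMod (∏ p ∈ S, p) ≃+* ((p : S) → ZMod (p : ℕ)) :=
    (ZMod.ringEquivCongr hprod).trans (ZMod.prodEquivPi (fun p : S => (p : ℕ)) hcop)
  have hu : ∀ a : ZMod (∏ p ∈ S, p), IsUnit a ↔ ∀ p : S, Φ a p ≠ 0 := by
    intro a
    rw [← isUnit_map_iff Φ a, Pi.isUnit_iff]
    exact forall_congr' fun p => isUnit_iff_ne_zero
  have h1 : ((Finset.univ : Finset (ZMod (∏ p ∈ S, p))).filter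
      (fun a => IsUnit a ∧ IsUnit (a - 1))).card =
      (Fintype.piFinset (fun p : S => (Finset.univ : Finset (ZMod (p : ℕ))).filter
        (fun a => a ≠ 0 ∧ a - 1 ≠ 0))).card := by
    apply Finset.card_equiv Φ.toEquiv
    intro a
    rw [Fintype.mem_piFinset, Finset.mem_filter, hu, hu]
    simp only [Finset.mem_univ, true_and, Finset.mem_filter]
    constructor
    · rintro ⟨h2, h3⟩ p
      refine ⟨h2 p, ?_⟩
      have := h3 p
      rw [map_sub, map_one, Pi.sub_apply, Pi.one_apply] at this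
      exact this
    · intro h
      refine ⟨fun p => (h p).1, fun p => ?_⟩
      rw [map_sub, map_one, Pi.sub_apply, Pi.one_apply]
      exact (h p).2
  rw [h1, Fintype.card_piFinset, ← Finset.prod_coe_sort S (fun p => p - 2)]
  refine Finset.prod_congr rfl fun p _ => ?_
  have h2 : (Finset.univ : Finset (ZMod (p : ℕ))).filter (fun a => a ≠ 0 ∧ a - 1 ≠ 0) =
      ((Finset.univ : Finset (ZMod (p : ℕ))).erase 0).erase 1 := by
    ext a
    simp only [Finset.mem_filter, Finset.mem_univ, true_and, Finset.mem_erase, and_true, sub_ne_zero]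
    exact and_comm
  rw [h2, Finset.card_erase_of_mem, Finset.card_erase_of_mem (Finset.mem_univ _), Finset.card_univ,
    ZMod.card]
  · rfl
  · rw [Finset.mem_erase]
    exact ⟨one_ne_zero, Finset.mem_univ _⟩

/-- [TE-E3] PROOF. Multiplicativity of `Nat.totient` (or the same isomorphism). -/
theorem totient_prod (S : Finset ℕ) (hS : ∀ p ∈ S, p.Prime) :
    (∏ p ∈ S, p).totient = ∏ p ∈ S, (p - 1) := by
  classical
  induction S using Finset.induction_on with
  | empty => simp
  | insert p S hp ih =>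
    rw [Finset.prod_insert hp, Finset.prod_insert hp, Nat.totient_mul, ih, Nat.totient_prime]
    · exact hS p (Finset.mem_insert_self p S)
    · exact fun q hq => hS q (Finset.mem_insert_of_mem hq)
    · apply Nat.Coprime.prod_right
      intro q hq
      rw [Nat.coprime_primes (hS p (Finset.mem_insert_self p S)) (hS q (Finset.mem_insert_of_mem hq))]
      intro h
      exact hp (h ▸ hq)

end Pool.Agent.MP_88e4f4_nt.TE
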