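import Pool.Agent.MP_88e4f4_nt.TE.E1
import Pool.Agent.MP_88e4f4_nt.TE.E3

set_option autoImplicit false

namespace Pool.Agent.MP_88e4f4_nt.TE

open ArithmeticFunction ArithmeticFunction.vonMangoldt

theorem residueClass_eq' {q : ℕ} (a : ZMod q) (n : ℕ) :
    residueClass a n = if (n : ZMod q) = a then vonMangoldt n else 0 := by
  unfold residueClass
  rw [Set.indicator_apply]
  rfl

theorem residueClass_one (n : ℕ) : residueClass (1 : ZMod 1) n = vonMangoldt n := by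
  rw [residueClass_eq', if_pos (Subsingleton.elim _ _)]

theorem summable_rc {q : ℕ} (a : ZMod q) {x : ℝ} (hx : 1 < x) :
    Summable fun n : ℕ => residueClass a n / (n : ℝ) ^ x :=
  LSeries.summable_real_of_abscissaOfAbsConv_lt <|
    (abscissaOfAbsConv_residueClass_le_one a).trans_lt <| mod_cast hx

theorem summable_L {x : ℝ} (hx : 1 < x) : Summable fun n : ℕ => vonMangoldt n / (n : ℝ) ^ x := by
  have h := summable_rc (1 : ZMod 1) hx
  simpa only [residueClass_one] using h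

theorem L_upper : ∃ C : ℝ, ∀ x : ℝ, x ∈ Set.Ioc (1 : ℝ) 2 →
    ∑' n : ℕ, vonMangoldt n / (n : ℝ) ^ x ≤ 1 / (x - 1) + C := by
  obtain ⟨C, hC⟩ := upper_bound (q := 1) (a := 1) isUnit_one
  refine ⟨C, fun x hx => ?_⟩
  have h := hC hx
  simpa only [residueClass_one, Nat.totient_one, Nat.cast_one, inv_one] using h

theorem summable_np : Summable fun n : ℕ => (if n.Prime then 0 else vonMangoldt n) / (n : ℝ) := by
  have h := summable_residueClass_non_primes_div (1 : ZMod 1)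
  simpa only [residueClass_one] using h

theorem coprime_rad {r N : ℕ} (hr : r ≠ 0) :
    Nat.Coprime r N ↔ Nat.Coprime (∏ p ∈ r.primeFactors, p) N := by
  constructor
  · intro h
    exact Nat.Coprime.coprime_dvd_left (Nat.prod_primeFactors_dvd r) h
  · intro h
    by_contra h2
    obtain ⟨p, hp, h3, h4⟩ := Nat.Prime.not_coprime_iff_dvd.1 h2
    have h5 : p ∣ ∏ p ∈ r.primeFactors, p :=
      Finset.dvd_prod_of_mem _ (Nat.mem_primeFactors.2 ⟨hp, h3, hr⟩)
    exact Nat.Prime.not_coprime_iff_dvd.2 ⟨p, hp, h5, h4⟩ h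

theorem LG_eq {r s : ℕ} (hr : 2 ≤ r) (hs : s = ∏ p ∈ r.primeFactors, p) [NeZero s] (n : ℕ) :
    LG r n = ∑ a ∈ (Finset.univ : Finset (ZMod s)).filter (fun a => IsUnit a ∧ IsUnit (a - 1)),
      residueClass a n := by
  rcases Nat.eq_zero_or_pos n with h0 | h0
  · subst h0
    rw [LG]
    simp
  · have h1 : ∀ a : ZMod s, residueClass a n = if (n : ZMod s) = a then vonMangoldt n else 0 :=
      fun a => residueClass_eq' a n
    rw [Finset.sum_congr rfl (fun a _ => h1 a), Finset.sum_ite_eq, LG]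
    have h2 : Nat.Coprime r (n * (n - 1)) ↔
        (n : ZMod s) ∈ (Finset.univ : Finset (ZMod s)).filter
          (fun a => IsUnit a ∧ IsUnit (a - 1)) := by
      rw [Finset.mem_filter, coprime_rad (by omega), ← hs, Nat.coprime_mul_iff_right]
      have e : (n : ZMod s) - 1 = ((n - 1 : ℕ) : ZMod s) := by
        rw [Nat.cast_sub h0, Nat.cast_one]
      rw [e, ZMod.isUnit_iff_coprime, ZMod.isUnit_iff_coprime, Nat.coprime_comm,
        Nat.coprime_comm (n := s) (m := n - 1)]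
      simp
    by_cases h3 : Nat.Coprime r (n * (n - 1))
    · rw [if_pos h3, if_pos (h2.1 h3)]
    · rw [if_neg h3, if_neg (fun h => h3 (h2.2 h))]

theorem LG_nonneg (r n : ℕ) : 0 ≤ LG r n := by
  rw [LG]
  split_ifs
  · exact vonMangoldt_nonneg
  · exact le_rfl

theorem LG_le (r n : ℕ) : LG r n ≤ vonMangoldt n := by
  rw [LG]
  split_ifs
  · exact le_rfl
  · exact vonMangoldt_nonneg

theorem summable_LG (r : ℕ) {x : ℝ} (hx : 1 < x) : Summable fun n : ℕ => LG r n / (n : ℝ) ^ x := by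
  refine Summable.of_nonneg_of_le (fun n => ?_) (fun n => ?_) (summable_L hx)
  · have := LG_nonneg r n
    positivity
  · exact div_le_div_of_nonneg_right (LG_le r n) (by positivity)

theorem dl_eq {r s : ℕ} (hr : Odd r) (hs : s = ∏ p ∈ r.primeFactors, p) [NeZero s] :
    (((Finset.univ : Finset (ZMod s)).filter
      (fun a => IsUnit a ∧ IsUnit (a - 1))).card : ℝ) * (s.totient : ℝ)⁻¹ = dl r := by
  subst hs
  have hp : ∀ p ∈ r.primeFactors, p.Prime := fun p hp => Nat.prime_of_mem_primeFactors hp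
  have hp3 : ∀ p ∈ r.primeFactors, 3 ≤ p := by
    intro p hpm
    have h1 := hp p hpm
    have h2 : p ≠ 2 := by
      rintro rfl
      have h3 := Nat.dvd_of_mem_primeFactors hpm
      exact (Nat.not_even_iff_odd.2 hr) (even_iff_two_dvd.2 h3)
    have := h1.two_le
    omega
  rw [card_U _ hp, totient_prod _ hp, dl, Nat.cast_prod, Nat.cast_prod, ← Finset.prod_inv_distrib,
    ← Finset.prod_mul_distrib]
  refine Finset.prod_congr rfl fun p hpm => ?_
  have h3 := hp3 p hpm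
  have h4 : (3 : ℝ) ≤ p := by exact_mod_cast h3
  rw [Nat.cast_sub (by omega), Nat.cast_sub (by omega)]
  push_cast
  have h5 : (p : ℝ) - 1 ≠ 0 := by
    intro h
    linarith
  field_simp
  ring

theorem LG_lower {r : ℕ} (hr : Odd r) (hr3 : 3 ≤ r) : ∃ C : ℝ, 0 ≤ C ∧ ∀ x : ℝ,
    x ∈ Set.Ioc (1 : ℝ) 2 → dl r / (x - 1) - C ≤ ∑' n : ℕ, LG r n / (n : ℝ) ^ x := by
  obtain ⟨s, hs⟩ : ∃ s, s = ∏ p ∈ r.primeFactors, p := ⟨_, rfl⟩
  have hs0 : s ≠ 0 := by
    rw [hs]
    exact Finset.prod_ne_zero_iff.2 fun p hp => (Nat.prime_of_mem_primeFactors hp).ne_zero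
  have : NeZero s := ⟨hs0⟩
  obtain ⟨U, hU⟩ : ∃ U : Finset (ZMod s), U = Finset.univ.filter
    (fun a => IsUnit a ∧ IsUnit (a - 1)) := ⟨_, rfl⟩
  have hb : ∀ a ∈ U, ∃ C : ℝ, ∀ x : ℝ, x ∈ Set.Ioc (1 : ℝ) 2 →
      (s.totient : ℝ)⁻¹ / (x - 1) - C ≤ ∑' n, residueClass a n / (n : ℝ) ^ x := by
    intro a ha
    rw [hU, Finset.mem_filter] at ha
    obtain ⟨C, hC⟩ := LSeries_residueClass_lower_bound ha.2.1
    exact ⟨C, fun x hx => hC hx⟩
  choose! C hC using hb
  refine ⟨|∑ a ∈ U, C a|, abs_nonneg _, fun x hx => ?_⟩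
  have h1 : ∑' n : ℕ, LG r n / (n : ℝ) ^ x =
      ∑ a ∈ U, ∑' n, residueClass a n / (n : ℝ) ^ x := by
    rw [← Summable.tsum_finsetSum (fun a _ => summable_rc a hx.1)]
    refine tsum_congr fun n => ?_
    rw [LG_eq (by omega) hs n, ← hU, Finset.sum_div]
  rw [h1]
  have h2 : ∑ a ∈ U, ((s.totient : ℝ)⁻¹ / (x - 1) - C a) ≤
      ∑ a ∈ U, ∑' n, residueClass a n / (n : ℝ) ^ x :=
    Finset.sum_le_sum fun a ha => hC a ha x hx
  refine le_trans ?_ h2
  rw [Finset.sum_sub_distrib, Finset.sum_const, nsmul_eq_mul]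
  have h3 := dl_eq hr hs
  rw [← hU] at h3
  rw [← h3, mul_div_assoc]
  have := le_abs_self (∑ a ∈ U, C a)
  linarith

end Pool.Agent.MP_88e4f4_nt.TE
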