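import Pool.Agent.MP_88e4f4_nt.TE.Defs
import Pool.Agent.Lib.helper71.Mertens

set_option autoImplicit false

namespace Pool.Agent.MP_88e4f4_nt.TE

open Finset

theorem e4_sum_log (Y : ℕ) (P : Finset ℕ) :
    ∑ y ∈ (Icc 1 Y).filter (fun y => ∀ q ∈ P, ¬ q ∣ y), Real.log y ≤
      ∑ d ∈ (Icc 1 Y).filter (fun y => ∀ q ∈ P, ¬ q ∣ y), Chebyshev.psi ((Y : ℝ) / d) := by
  classical
  set A := (Icc 1 Y).filter (fun y => ∀ q ∈ P, ¬ q ∣ y) with hA
  have h1 : ∀ y ∈ A, Real.log y = ∑ n ∈ y.divisors, ArithmeticFunction.vonMangoldt n :=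
    fun y _ => ArithmeticFunction.vonMangoldt_sum.symm
  have h2 : ∀ d ∈ A, Chebyshev.psi ((Y : ℝ) / d) =
      ∑ n ∈ Ioc 0 (Y / d), ArithmeticFunction.vonMangoldt n := by
    intro d _
    unfold Chebyshev.psi
    rw [Nat.floor_div_eq_div]
  rw [Finset.sum_congr rfl h1, Finset.sum_congr rfl h2, Finset.sum_sigma', Finset.sum_sigma']
  let φ : (Σ _ : ℕ, ℕ) → (Σ _ : ℕ, ℕ) := fun p => ⟨p.1 / p.2, p.2⟩
  have hinj : Set.InjOn φ (A.sigma fun y => y.divisors : Finset (Σ _ : ℕ, ℕ)) := by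
    rintro ⟨y, n⟩ hp ⟨y', n'⟩ hp' heq
    simp only [φ, Sigma.mk.injEq, heq_eq_eq] at heq
    have hp1 : (⟨y, n⟩ : Σ _ : ℕ, ℕ) ∈ (A.sigma fun y => y.divisors) := hp
    have hp2 : (⟨y', n'⟩ : Σ _ : ℕ, ℕ) ∈ (A.sigma fun y => y.divisors) := hp'
    rw [Finset.mem_sigma] at hp1 hp2
    have hd1 : n ∣ y := Nat.dvd_of_mem_divisors hp1.2
    have hd2 : n' ∣ y' := Nat.dvd_of_mem_divisors hp2.2
    obtain ⟨h3, h4⟩ := heq
    subst h4
    have h5 : y = y' := by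
      rw [← Nat.div_mul_cancel hd1, ← Nat.div_mul_cancel hd2, h3]
    rw [h5]
  rw [show (∑ x ∈ A.sigma fun y => y.divisors, ArithmeticFunction.vonMangoldt x.2) =
      ∑ x ∈ (A.sigma fun y => y.divisors).image φ, ArithmeticFunction.vonMangoldt x.2 from
    (Finset.sum_image hinj (f := fun x : (Σ _ : ℕ, ℕ) => ArithmeticFunction.vonMangoldt x.2)).symm]
  apply Finset.sum_le_sum_of_subset_of_nonneg
  · intro x hx
    obtain ⟨⟨y, n⟩, hp, rfl⟩ := Finset.mem_image.1 hx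
    rw [Finset.mem_sigma] at hp ⊢
    obtain ⟨hy, hn⟩ := hp
    have hy' : y ∈ A := hy
    have hd : n ∣ y := Nat.dvd_of_mem_divisors hn
    rw [hA, Finset.mem_filter, Finset.mem_Icc] at hy'
    obtain ⟨⟨hy1, hy2⟩, hy3⟩ := hy'
    have hn0 : 0 < n := Nat.pos_of_dvd_of_pos hd hy1
    have hle : n ≤ y := Nat.le_of_dvd hy1 hd
    have hdd : y / n ∣ y := Nat.div_dvd_of_dvd hd
    have hpos : 0 < y / n := Nat.div_pos hle hn0
    constructor
    · change y / n ∈ A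
      rw [hA, Finset.mem_filter, Finset.mem_Icc]
      exact ⟨⟨hpos, (Nat.div_le_self y n).trans hy2⟩, fun q hq hqd => hy3 q hq (hqd.trans hdd)⟩
    · change n ∈ Ioc 0 (Y / (y / n))
      rw [Finset.mem_Ioc]
      refine ⟨hn0, ?_⟩
      rw [Nat.le_div_iff_mul_le hpos, Nat.mul_div_cancel' hd]
      exact hy2
  · intro i _ _
    exact ArithmeticFunction.vonMangoldt_nonneg

/-- [TE-E4] PROOF. Let `f y = 1` if no `q ∈ P` divides `y`, else `0` (completely multiplicative), `A` the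
set on the left, `S = ∑_{d ∈ A} 1/d`. By `ArithmeticFunction.vonMangoldt_sum`,
`∑_{y ∈ A} log y = ∑_{y ∈ A} ∑_{n ∣ y} Λ n = ∑_{n ≤ Y} Λ n #{d ≤ Y/n, n d ∈ A} ≤ ∑_{d ∈ A} ψ(Y/d)
≤ C₁ Y S` (`Chebyshev.psi_le_const_mul_self`). Also `∑_{y ∈ A} (log Y - log y) ≤ ∑_{y ∈ A} Y/y = Y S`
(`log t ≤ t`). Hence `#A log Y ≤ (C₁ + 1) Y S`. -/
theorem sieve_log : ∃ C : ℝ, 0 < C ∧ ∀ (Y : ℕ) (P : Finset ℕ), 2 ≤ Y →
    (((Icc 1 Y).filter (fun y => ∀ q ∈ P, ¬ q ∣ y)).card : ℝ) * Real.log Y ≤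
      C * Y * ∑ d ∈ (Icc 1 Y).filter (fun y => ∀ q ∈ P, ¬ q ∣ y), (1 : ℝ) / d := by
  refine ⟨Real.log 4 + 5, by have := Real.log_pos (show (1 : ℝ) < 4 by norm_num); linarith, ?_⟩
  intro Y P hY
  set A := (Icc 1 Y).filter (fun y => ∀ q ∈ P, ¬ q ∣ y) with hA
  have hYpos : (0 : ℝ) < Y := by
    have : 0 < Y := by omega
    exact_mod_cast this
  have h1 := e4_sum_log Y P
  rw [← hA] at h1
  have h2 : ∑ d ∈ A, Chebyshev.psi ((Y : ℝ) / d) ≤ ∑ d ∈ A, (Real.log 4 + 4) * Y * ((1 : ℝ) / d) := by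
    apply Finset.sum_le_sum
    intro d _
    have := Chebyshev.psi_le_const_mul_self (x := (Y : ℝ) / d) (by positivity)
    refine this.trans (le_of_eq ?_)
    ring
  rw [← Finset.mul_sum] at h2
  have h3 : ∑ y ∈ A, (Real.log Y - Real.log y) ≤ ∑ y ∈ A, (Y : ℝ) * ((1 : ℝ) / y) := by
    apply Finset.sum_le_sum
    intro y hy
    rw [hA, Finset.mem_filter, Finset.mem_Icc] at hy
    have hy0 : (0 : ℝ) < y := by
      have : 0 < y := hy.1.1
      exact_mod_cast this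
    rw [← Real.log_div hYpos.ne' hy0.ne']
    have h4 := Real.log_le_sub_one_of_pos (show (0 : ℝ) < (Y : ℝ) / y by positivity)
    have h5 : (Y : ℝ) * ((1 : ℝ) / y) = (Y : ℝ) / y := by ring
    rw [h5]
    linarith
  rw [← Finset.mul_sum, Finset.sum_sub_distrib, Finset.sum_const, nsmul_eq_mul] at h3
  nlinarith [h1, h2, h3]

/-- [TE-E4] PROOF. All prime factors of such a `d` are primes `≤ Y` outside `P`, so the sum is at most
`∏_{p ≤ Y, p ∉ P} (1 - 1/p)⁻¹` (`EulerProduct.prod_filter_prime_geometric_eq_tsum_factoredNumbers`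
or a direct argument). -/
theorem sum_le_prod (Y : ℕ) (P : Finset ℕ) :
    ∑ d ∈ (Icc 1 Y).filter (fun y => ∀ q ∈ P, ¬ q ∣ y), (1 : ℝ) / d ≤
      ∏ p ∈ ((Icc 1 Y).filter Nat.Prime) \ P, (1 - (1 : ℝ) / p)⁻¹ := by
  classical
  set A := (Icc 1 Y).filter (fun y => ∀ q ∈ P, ¬ q ∣ y) with hA
  set s := ((Icc 1 Y).filter Nat.Prime) \ P with hs
  let f : ℕ →* ℝ :=
    { toFun := fun n => (1 : ℝ) / n
      map_one' := by simp
      map_mul' := fun m n => by push_cast; rw [one_div_mul_one_div] }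
  have hf : ∀ n, f n = (1 : ℝ) / n := fun n => rfl
  have hlt : ∀ {p : ℕ}, p.Prime → ‖f p‖ < 1 := by
    intro p hp
    have h2 : (1 : ℝ) < p := by exact_mod_cast hp.one_lt
    rw [hf, Real.norm_of_nonneg (by positivity), div_lt_one (by linarith)]
    exact h2
  have h1 := (EulerProduct.summable_and_hasSum_factoredNumbers_prod_filter_prime_geometric
    (f := f) hlt s).2
  have h2 : s.filter Nat.Prime = s := by
    rw [Finset.filter_eq_self]
    intro p hp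
    rw [hs, Finset.mem_sdiff, Finset.mem_filter] at hp
    exact hp.1.2
  rw [h2] at h1
  have h3 : HasSum ((Nat.factoredNumbers s).indicator (fun n => f n)) (∏ p ∈ s, (1 - f p)⁻¹) :=
    hasSum_subtype_iff_indicator.1 h1
  have h4 := sum_le_hasSum A (fun i _ => by
    apply Set.indicator_nonneg
    intro n _
    rw [hf]
    positivity) h3
  have h5 : ∑ i ∈ A, (Nat.factoredNumbers s).indicator (fun n => f n) i = ∑ d ∈ A, (1 : ℝ) / d := by
    apply Finset.sum_congr rfl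
    intro d hd
    rw [Set.indicator_of_mem, hf]
    rw [Nat.mem_factoredNumbers']
    intro p hp hpd
    rw [hA, Finset.mem_filter, Finset.mem_Icc] at hd
    rw [hs, Finset.mem_sdiff, Finset.mem_filter, Finset.mem_Icc]
    exact ⟨⟨⟨hp.one_lt.le, (Nat.le_of_dvd hd.1.1 hpd).trans hd.1.2⟩, hp⟩,
      fun hpP => hd.2 p hpP hpd⟩
  rw [h5] at h4
  exact h4

/-- [TE-E4] **Upper bound sieve.** PROOF. `sieve_log`, `sum_le_prod`, and
`∏_{p ≤ Y} (1 - 1/p)⁻¹ ≤ C (1 + log Y) ≤ C' log Y` (Mertens: `Pool.Agent.IDE.mertens_upper` in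
`Pool/Agent/IDE/N1.lean`, or `inv_V_le` in `Pool/Agent/Lib/helper71/Mertens.lean` of the graded
repository; import the latter, `Pool.Agent.Lib.helper71.Mertens`, it only needs Mathlib) and
`1 - 1/q ≤ exp (-1/q)` for `q ∈ P`. -/
theorem sieve_upper : ∃ C : ℝ, 0 < C ∧ ∀ (Y : ℕ) (P : Finset ℕ), 2 ≤ Y →
    (∀ q ∈ P, q.Prime ∧ q ≤ Y) →
    (((Icc 1 Y).filter (fun y => ∀ q ∈ P, ¬ q ∣ y)).card : ℝ) ≤
      C * Y * Real.exp (-∑ q ∈ P, (1 : ℝ) / q) := by
  obtain ⟨C, hC, h1⟩ := sieve_log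
  refine ⟨C * Real.exp 16 * 3, by positivity, ?_⟩
  intro Y P hY hP
  classical
  set A := (Icc 1 Y).filter (fun y => ∀ q ∈ P, ¬ q ∣ y) with hA
  have h2 := h1 Y P hY
  rw [← hA] at h2
  have h3 := sum_le_prod Y P
  rw [← hA] at h3
  have hYpos : (0 : ℝ) < Y := by
    have : 0 < Y := by omega
    exact_mod_cast this
  have hlog : Real.log 2 ≤ Real.log Y := by
    apply Real.log_le_log (by norm_num)
    exact_mod_cast hY
  have hlog2 := Real.log_two_gt_d9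
  have hlY : 0 < Real.log Y := by linarith
  have hpi : ((Icc 1 Y).filter Nat.Prime) = Pool.Agent.Lib.helper71.PI 0 Y := rfl
  have hsub : P ⊆ (Icc 1 Y).filter Nat.Prime := by
    intro q hq
    rw [Finset.mem_filter, Finset.mem_Icc]
    exact ⟨⟨(hP q hq).1.one_lt.le, (hP q hq).2⟩, (hP q hq).1⟩
  have hposq : ∀ q ∈ (Icc 1 Y).filter Nat.Prime, 0 < 1 - (1 : ℝ) / q := by
    intro q hq
    exact Pool.Agent.Lib.helper71.one_sub_inv_pos (Finset.mem_filter.1 hq).2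
  have h4 : ∏ p ∈ ((Icc 1 Y).filter Nat.Prime) \ P, (1 - (1 : ℝ) / p)⁻¹ =
      (Pool.Agent.Lib.helper71.V Y)⁻¹ * ∏ q ∈ P, (1 - (1 : ℝ) / q) := by
    have h5 := Finset.prod_sdiff (f := fun p : ℕ => (1 - (1 : ℝ) / p)⁻¹) hsub
    have h6 : (Pool.Agent.Lib.helper71.V Y)⁻¹ =
        ∏ p ∈ (Icc 1 Y).filter Nat.Prime, (1 - (1 : ℝ) / p)⁻¹ := by
      rw [Pool.Agent.Lib.helper71.V, ← Finset.prod_inv_distrib]
      rfl
    rw [h6, ← h5, mul_assoc, ← Finset.prod_mul_distrib]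
    have h7 : ∏ q ∈ P, ((1 - (1 : ℝ) / q)⁻¹ * (1 - (1 : ℝ) / q)) = 1 := by
      apply Finset.prod_eq_one
      intro q hq
      exact inv_mul_cancel₀ (hposq q (hsub hq)).ne'
    rw [h7, mul_one]
  have h8 : ∏ q ∈ P, (1 - (1 : ℝ) / q) ≤ Real.exp (-∑ q ∈ P, (1 : ℝ) / q) := by
    rw [← Finset.sum_neg_distrib, Real.exp_sum]
    apply Finset.prod_le_prod
    · intro q hq
      exact (hposq q (hsub hq)).le
    · intro q _
      have := Real.add_one_le_exp (-((1 : ℝ) / q))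
      linarith
  have h9 := Pool.Agent.Lib.helper71.inv_V_le Y hY
  set E := Real.exp (-∑ q ∈ P, (1 : ℝ) / q) with hE
  have hE0 : 0 < E := Real.exp_pos _
  have hVinv : 0 < (Pool.Agent.Lib.helper71.V Y)⁻¹ := inv_pos.2 (Pool.Agent.Lib.helper71.V_pos Y)
  have h10 : ∑ d ∈ A, (1 : ℝ) / d ≤ Real.exp 16 * (3 * Real.log Y) * E := by
    refine h3.trans ?_
    rw [h4]
    have h11 : (Pool.Agent.Lib.helper71.V Y)⁻¹ ≤ Real.exp 16 * (3 * Real.log Y) := by
      refine h9.trans ?_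
      apply mul_le_mul_of_nonneg_left _ (Real.exp_pos _).le
      linarith
    apply mul_le_mul h11 h8
    · exact Finset.prod_nonneg fun q hq => (hposq q (hsub hq)).le
    · positivity
  have h12 : (A.card : ℝ) * Real.log Y ≤ (C * Real.exp 16 * 3 * Y * E) * Real.log Y := by
    refine h2.trans ?_
    have h13 := mul_le_mul_of_nonneg_left h10 (show 0 ≤ C * Y by positivity)
    refine h13.trans (le_of_eq ?_)
    ring
  exact le_of_mul_le_mul_right h12 hlY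

end Pool.Agent.MP_88e4f4_nt.TE
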