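import Pool.Agent.MP_88e4f4_nt.TE.E2

set_option autoImplicit false

namespace Pool.Agent.MP_88e4f4_nt.TE

open ArithmeticFunction ArithmeticFunction.vonMangoldt Finset

theorem exp_step {v : ℝ} : v * Real.exp (-(2 * v)) ≤ Real.exp (-v) - Real.exp (-(2 * v)) := by
  have h1 : Real.exp (-v) = Real.exp v * Real.exp (-(2 * v)) := by
    rw [← Real.exp_add]
    ring_nf
  have h2 := Real.add_one_le_exp v
  have h3 := mul_le_mul_of_nonneg_right h2 (Real.exp_pos (-(2 * v))).le
  rw [← h1] at h3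
  linarith

theorem exp_sum (k : ℕ) (v : ℝ) :
    ∑ i ∈ range k, (2 ^ i * v) * Real.exp (-(2 * (2 ^ i * v))) ≤
      Real.exp (-v) - Real.exp (-(2 ^ k * v)) := by
  induction k with
  | zero => simp
  | succ k ih =>
    rw [sum_range_succ]
    have h := exp_step (v := 2 ^ k * v)
    have e : (2 : ℝ) ^ (k + 1) * v = 2 * (2 ^ k * v) := by ring
    rw [e]
    linarith

/-- The good primes `q ≤ Y` with `Y ≤ q ^ (2 ^ k)`. -/
def QQ (r k Y : ℕ) : Finset ℕ :=
  (Icc 1 Y).filter fun q => q.Prime ∧ Nat.Coprime r (q * (q - 1)) ∧ Y ≤ q ^ (2 ^ k)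

theorem rpow_split {n : ℕ} (hn : 2 ≤ n) (u : ℝ) :
    (n : ℝ) ^ (1 + u) = n * Real.exp (u * Real.log n) := by
  have hn0 : (0 : ℝ) < n := by exact_mod_cast (by omega : 0 < n)
  rw [Real.rpow_add hn0, Real.rpow_one, Real.rpow_def_of_pos hn0, mul_comm (Real.log n)]

theorem pointwise (r k n Y : ℕ) {L : ℝ} (hL : 0 < L) (hLY : L = Real.log Y) (hY : 2 ≤ Y) :
    ∑ i ∈ range k, (2 ^ i / L) * (LG r n / (n : ℝ) ^ (1 + 2 * (2 ^ i / L))) ≤
      (1 / L) * (vonMangoldt n / (n : ℝ) ^ (1 + 1 / L)) +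
        Real.exp 1 * (2 ^ k / L) * (vonMangoldt n / (n : ℝ) ^ (1 + 2 ^ k / L)) +
        (if n ∈ QQ r k Y then (1 : ℝ) / n else 0) +
        (1 / Real.log 2) * ((if n.Prime then 0 else vonMangoldt n) / (n : ℝ)) := by
  have hl2 : 0 < Real.log 2 := Real.log_pos (by norm_num)
  have hvm : (0 : ℝ) ≤ vonMangoldt n := vonMangoldt_nonneg
  have hnp : (0 : ℝ) ≤ (if n.Prime then 0 else vonMangoldt n) := by
    split_ifs
    · exact le_rfl
    · exact hvm
  have t1 : 0 ≤ (1 / L) * (vonMangoldt n / (n : ℝ) ^ (1 + 1 / L)) := by positivity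
  have t2 : 0 ≤ Real.exp 1 * (2 ^ k / L) * (vonMangoldt n / (n : ℝ) ^ (1 + 2 ^ k / L)) := by
    positivity
  have t3 : 0 ≤ (if n ∈ QQ r k Y then (1 : ℝ) / n else 0) := by
    split_ifs
    · positivity
    · exact le_rfl
  have t4 : 0 ≤ (1 / Real.log 2) * ((if n.Prime then 0 else vonMangoldt n) / (n : ℝ)) := by
    positivity
  by_cases hn : n < 2
  · have h0 : vonMangoldt n = 0 := by
      interval_cases n
      · simp
      · simp
    have h1 : LG r n = 0 := le_antisymm ((LG_le r n).trans h0.le) (LG_nonneg r n)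
    have h2 : ∑ i ∈ range k, (2 ^ i / L) * (LG r n / (n : ℝ) ^ (1 + 2 * (2 ^ i / L))) = 0 := by
      refine sum_eq_zero fun i _ => ?_
      rw [h1]
      simp
    rw [h2]
    linarith
  push Not at hn
  have hn0 : (0 : ℝ) < n := by exact_mod_cast (by omega : 0 < n)
  obtain ⟨t, ht⟩ : ∃ t, t = Real.log n := ⟨_, rfl⟩
  have htl2 : Real.log 2 ≤ t := by
    rw [ht]
    exact Real.log_le_log (by norm_num) (by exact_mod_cast hn)
  have ht0 : 0 < t := by linarith
  obtain ⟨v, hv⟩ : ∃ v, v = t / L := ⟨_, rfl⟩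
  have hv0 : 0 ≤ v := by
    rw [hv]
    positivity
  have hvL : t = v * L := by
    rw [hv]
    field_simp
  have hLG := LG_nonneg r n
  have hmain : ∑ i ∈ range k, (2 ^ i / L) * (LG r n / (n : ℝ) ^ (1 + 2 * (2 ^ i / L))) ≤
      LG r n / (n * t) * (Real.exp (-v) - Real.exp (-(2 ^ k * v))) := by
    have h1 : ∀ i ∈ range k, (2 ^ i / L) * (LG r n / (n : ℝ) ^ (1 + 2 * (2 ^ i / L))) =
        LG r n / (n * t) * ((2 ^ i * v) * Real.exp (-(2 * (2 ^ i * v)))) := by
      intro i _
      rw [rpow_split hn, ← ht, Real.exp_neg, hv]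
      have e : 2 * (2 ^ i / L) * t = 2 * (2 ^ i * (t / L)) := by
        field_simp
      rw [e]
      have he := (Real.exp_pos (2 * (2 ^ i * (t / L)))).ne'
      field_simp
    rw [sum_congr rfl h1, ← mul_sum]
    exact mul_le_mul_of_nonneg_left (exp_sum k v) (by positivity)
  refine hmain.trans ?_
  have hw1 : Real.exp (-v) - Real.exp (-(2 ^ k * v)) ≤ Real.exp (-v) := by
    have := Real.exp_pos (-(2 ^ k * v))
    linarith
  have hexpv : Real.exp (-v) ≤ 1 := by
    rw [Real.exp_le_one_iff]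
    linarith
  rcases Nat.lt_or_ge Y n with hc | hc
  · -- large n
    have hLt : L ≤ t := by
      rw [hLY, ht]
      exact Real.log_le_log (by exact_mod_cast (by omega : 0 < Y)) (by exact_mod_cast hc.le)
    have h2 : LG r n / (n * t) * (Real.exp (-v) - Real.exp (-(2 ^ k * v))) ≤
        (1 / L) * (vonMangoldt n / (n : ℝ) ^ (1 + 1 / L)) := by
      calc LG r n / (n * t) * (Real.exp (-v) - Real.exp (-(2 ^ k * v)))
          ≤ LG r n / (n * t) * Real.exp (-v) := mul_le_mul_of_nonneg_left hw1 (by positivity)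
        _ ≤ vonMangoldt n / (n * L) * Real.exp (-v) := by
            refine mul_le_mul_of_nonneg_right ?_ (Real.exp_pos _).le
            exact div_le_div₀ hvm (LG_le r n) (by positivity)
              (mul_le_mul_of_nonneg_left hLt hn0.le)
        _ = (1 / L) * (vonMangoldt n / (n : ℝ) ^ (1 + 1 / L)) := by
            rw [rpow_split hn, ← ht, Real.exp_neg, hv]
            have e : 1 / L * t = t / L := by ring
            rw [e]
            have he := (Real.exp_pos (t / L)).ne'
            field_simp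
    linarith
  · rcases Nat.lt_or_ge (n ^ (2 ^ k)) Y with hd | hd
    · -- small n
      have hkt : 2 ^ k * v ≤ 1 := by
        have h1 : Real.log ((n ^ (2 ^ k) : ℕ) : ℝ) ≤ Real.log Y :=
          Real.log_le_log (by
            push_cast
            positivity) (by exact_mod_cast hd.le)
        rw [Nat.cast_pow, Real.log_pow, ← ht, ← hLY, hvL] at h1
        push_cast at h1
        have h2 : (2 ^ k * v) * L ≤ 1 * L := by linarith
        exact le_of_mul_le_mul_right h2 hL
      have h3 : Real.exp (-v) - Real.exp (-(2 ^ k * v)) ≤ 2 ^ k * v := by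
        have h4 := Real.one_sub_le_exp_neg (2 ^ k * v)
        linarith
      have h5 : LG r n / (n * t) * (Real.exp (-v) - Real.exp (-(2 ^ k * v))) ≤
          Real.exp 1 * (2 ^ k / L) * (vonMangoldt n / (n : ℝ) ^ (1 + 2 ^ k / L)) := by
        have h6 : (1 : ℝ) ≤ Real.exp 1 / Real.exp (2 ^ k * v) := by
          rw [one_le_div (Real.exp_pos _)]
          exact Real.exp_le_exp.2 hkt
        calc LG r n / (n * t) * (Real.exp (-v) - Real.exp (-(2 ^ k * v)))
            ≤ LG r n / (n * t) * (2 ^ k * v) := mul_le_mul_of_nonneg_left h3 (by positivity)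
          _ ≤ vonMangoldt n / (n * t) * (2 ^ k * v) := by
              refine mul_le_mul_of_nonneg_right ?_ (by positivity)
              exact div_le_div_of_nonneg_right (LG_le r n) (by positivity)
          _ = vonMangoldt n / n * (2 ^ k / L) * 1 := by
              rw [hv]
              field_simp
          _ ≤ vonMangoldt n / n * (2 ^ k / L) * (Real.exp 1 / Real.exp (2 ^ k * v)) :=
              mul_le_mul_of_nonneg_left h6 (by positivity)
          _ = Real.exp 1 * (2 ^ k / L) * (vonMangoldt n / (n : ℝ) ^ (1 + 2 ^ k / L)) := by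
              rw [rpow_split hn, ← ht, hv]
              have e : 2 ^ k / L * t = 2 ^ k * (t / L) := by ring
              rw [e]
              have he := (Real.exp_pos (2 ^ k * (t / L))).ne'
              field_simp
      linarith
    · -- the middle range
      have h3 : LG r n / (n * t) * (Real.exp (-v) - Real.exp (-(2 ^ k * v))) ≤
          LG r n / (n * t) := by
        calc LG r n / (n * t) * (Real.exp (-v) - Real.exp (-(2 ^ k * v)))
            ≤ LG r n / (n * t) * 1 :=
              mul_le_mul_of_nonneg_left (hw1.trans hexpv) (by positivity)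
          _ = LG r n / (n * t) := mul_one _
      by_cases hp : n.Prime
      · by_cases hco : Nat.Coprime r (n * (n - 1))
        · have h4 : LG r n / (n * t) = 1 / n := by
            rw [LG, if_pos hco, vonMangoldt_apply_prime hp, ← ht]
            field_simp
          have h5 : n ∈ QQ r k Y := by
            rw [QQ, mem_filter, mem_Icc]
            exact ⟨⟨by omega, hc⟩, hp, hco, hd⟩
          rw [if_pos h5]
          have h6 := h3.trans h4.le
          linarith
        · have h4 : LG r n = 0 := by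
            rw [LG, if_neg hco]
          rw [h4] at h3 ⊢
          simp only [zero_div, zero_mul]
          linarith
      · rw [if_neg hp] at t4 ⊢
        have h4 : LG r n / (n * t) ≤ (1 / Real.log 2) * (vonMangoldt n / (n : ℝ)) := by
          calc LG r n / (n * t) ≤ vonMangoldt n / (n * Real.log 2) :=
                div_le_div₀ hvm (LG_le r n) (by positivity)
                  (mul_le_mul_of_nonneg_left htl2 hn0.le)
            _ = (1 / Real.log 2) * (vonMangoldt n / (n : ℝ)) := by field_simp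
        linarith

/-- Lower bound for the good primes near `Y` on the logarithmic scale. -/
theorem primes_lower : ∃ C₂ : ℝ, ∀ r : ℕ, Odd r → 3 ≤ r → ∀ k : ℕ, ∃ Y₀ : ℕ, ∀ Y : ℕ, Y₀ ≤ Y →
    k * dl r / 2 - C₂ ≤ ∑ q ∈ QQ r k Y, (1 : ℝ) / q := by
  obtain ⟨C0, hC0⟩ := L_upper
  obtain ⟨Cn, hCn⟩ : ∃ Cn : ℝ, Cn = ∑' n : ℕ, (if n.Prime then 0 else vonMangoldt n) / (n : ℝ) :=
    ⟨_, rfl⟩
  refine ⟨2 + Real.exp 1 + (1 / Real.log 2) * Cn, fun r hr hr3 k => ?_⟩
  obtain ⟨C, hC, hlow⟩ := LG_lower hr hr3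
  have hT : Filter.Tendsto (fun n : ℕ => Real.log (n : ℝ)) Filter.atTop Filter.atTop :=
    Real.tendsto_log_atTop.comp tendsto_natCast_atTop_atTop
  obtain ⟨Y₀, hY₀⟩ := Filter.eventually_atTop.1 (hT.eventually_ge_atTop
    (2 ^ k * (C + Real.exp 1 * |C0|) + |C0| + 2 ^ k))
  refine ⟨max Y₀ 2, fun Y hY => ?_⟩
  have hLbig := hY₀ Y ((le_max_left _ _).trans hY)
  have hY2 : 2 ≤ Y := (le_max_right _ _).trans hY
  obtain ⟨L, hLY⟩ : ∃ L, L = Real.log Y := ⟨_, rfl⟩
  rw [← hLY] at hLbig
  have hk1 : (1 : ℝ) ≤ 2 ^ k := one_le_pow₀ (by norm_num)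
  have hkL : (2 : ℝ) ^ k ≤ L := by
    have : 0 ≤ 2 ^ k * (C + Real.exp 1 * |C0|) + |C0| := by positivity
    linarith
  have hL : 0 < L := by linarith
  have hpt := fun n => pointwise r k n Y hL hLY hY2
  -- summability
  have hx0 : (1 : ℝ) + 1 / L ∈ Set.Ioc (1 : ℝ) 2 := by
    have h1 : 0 < 1 / L := by positivity
    have h2 : 1 / L ≤ 1 := by
      rw [div_le_one hL]
      linarith
    exact ⟨by linarith, by linarith⟩
  have hxk : (1 : ℝ) + 2 ^ k / L ∈ Set.Ioc (1 : ℝ) 2 := by
    have h1 : 0 < 2 ^ k / L := by positivity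
    have h2 : 2 ^ k / L ≤ 1 := by
      rw [div_le_one hL]
      exact hkL
    exact ⟨by linarith, by linarith⟩
  have hxi : ∀ i ∈ range k, (1 : ℝ) + 2 * (2 ^ i / L) ∈ Set.Ioc (1 : ℝ) 2 := by
    intro i hi
    have h1 : 0 < 2 * (2 ^ i / L) := by positivity
    have h3 : (2 : ℝ) ^ (i + 1) ≤ 2 ^ k :=
      pow_le_pow_right₀ (by norm_num) (mem_range.1 hi)
    have h2 : 2 * (2 ^ i / L) ≤ 1 := by
      rw [← mul_div_assoc, div_le_one hL]
      calc (2 : ℝ) * 2 ^ i = 2 ^ (i + 1) := by ring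
        _ ≤ 2 ^ k := h3
        _ ≤ L := hkL
    exact ⟨by linarith, by linarith⟩
  have s1 := (summable_L hx0.1).mul_left (1 / L)
  have s2 := (summable_L hxk.1).mul_left (Real.exp 1 * (2 ^ k / L))
  have s3 : Summable fun n : ℕ => (if n ∈ QQ r k Y then (1 : ℝ) / n else 0) :=
    summable_of_ne_finset_zero (s := QQ r k Y) fun n hn => if_neg hn
  have s4 := summable_np.mul_left (1 / Real.log 2)
  have s5 : ∀ i ∈ range k,
      Summable fun n : ℕ => (2 ^ i / L) * (LG r n / (n : ℝ) ^ (1 + 2 * (2 ^ i / L))) :=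
    fun i hi => (summable_LG r (hxi i hi).1).mul_left _
  have hsum := Summable.tsum_le_tsum hpt (summable_sum s5) (((s1.add s2).add s3).add s4)
  rw [Summable.tsum_finsetSum s5, ((s1.add s2).add s3).tsum_add s4, (s1.add s2).tsum_add s3,
    s1.tsum_add s2, tsum_mul_left, tsum_mul_left, tsum_mul_left, ← hCn] at hsum
  have e3 : ∑' n : ℕ, (if n ∈ QQ r k Y then (1 : ℝ) / n else 0) = ∑ q ∈ QQ r k Y, (1 : ℝ) / q := by
    rw [tsum_eq_sum (s := QQ r k Y) fun n hn => if_neg hn]
    exact sum_congr rfl fun n hn => if_pos hn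
  rw [e3] at hsum
  -- lower bound of the left side
  have hleft : (k : ℝ) * dl r / 2 - C * 2 ^ k / L ≤
      ∑ i ∈ range k, ∑' n : ℕ, (2 ^ i / L) * (LG r n / (n : ℝ) ^ (1 + 2 * (2 ^ i / L))) := by
    have h1 : ∀ i ∈ range k, dl r / 2 - C * (2 ^ i / L) ≤
        ∑' n : ℕ, (2 ^ i / L) * (LG r n / (n : ℝ) ^ (1 + 2 * (2 ^ i / L))) := by
      intro i hi
      rw [tsum_mul_left]
      have h2 := hlow _ (hxi i hi)
      have h3 : (0 : ℝ) < 2 ^ i / L := by positivity
      have h4 := mul_le_mul_of_nonneg_left h2 h3.le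
      refine le_trans (le_of_eq ?_) h4
      rw [add_sub_cancel_left]
      field_simp
    have h2 := sum_le_sum h1
    refine le_trans ?_ h2
    rw [sum_sub_distrib, sum_const, card_range, nsmul_eq_mul, ← mul_sum, ← sum_div]
    have h5 : ∑ i ∈ range k, (2 : ℝ) ^ i = 2 ^ k - 1 := by
      rw [geom_sum_eq (by norm_num)]
      ring
    rw [h5]
    have h6 : C * ((2 ^ k - 1) / L) ≤ C * 2 ^ k / L := by
      rw [← mul_div_assoc]
      refine div_le_div_of_nonneg_right ?_ hL.le
      exact mul_le_mul_of_nonneg_left (by linarith) hC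
    have h7 : (k : ℝ) * (dl r / 2) = k * dl r / 2 := by ring
    rw [h7]
    linarith
  -- upper bounds of the right side
  have r1 : 1 / L * ∑' n : ℕ, vonMangoldt n / (n : ℝ) ^ (1 + 1 / L) ≤ 1 + |C0| / L := by
    have h1 := hC0 _ hx0
    have h2 : 1 / L * ∑' n : ℕ, vonMangoldt n / (n : ℝ) ^ (1 + 1 / L) ≤
        1 / L * (1 / (1 + 1 / L - 1) + |C0|) :=
      mul_le_mul_of_nonneg_left (h1.trans (by
        have := le_abs_self C0
        linarith)) (by positivity)
    refine h2.trans (le_of_eq ?_)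
    rw [add_sub_cancel_left]
    field_simp
  have r2 : Real.exp 1 * (2 ^ k / L) * ∑' n : ℕ, vonMangoldt n / (n : ℝ) ^ (1 + 2 ^ k / L) ≤
      Real.exp 1 + Real.exp 1 * 2 ^ k * |C0| / L := by
    have h1 := hC0 _ hxk
    have h2 : Real.exp 1 * (2 ^ k / L) * ∑' n : ℕ, vonMangoldt n / (n : ℝ) ^ (1 + 2 ^ k / L) ≤
        Real.exp 1 * (2 ^ k / L) * (1 / (1 + 2 ^ k / L - 1) + |C0|) :=
      mul_le_mul_of_nonneg_left (h1.trans (by
        have := le_abs_self C0
        linarith)) (by positivity)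
    refine h2.trans (le_of_eq ?_)
    rw [add_sub_cancel_left]
    field_simp
  have herr : C * 2 ^ k / L + |C0| / L + Real.exp 1 * 2 ^ k * |C0| / L ≤ 1 := by
    rw [← add_div, ← add_div, div_le_one hL]
    have : (0 : ℝ) ≤ 2 ^ k := by positivity
    nlinarith [hLbig]
  linarith

end Pool.Agent.MP_88e4f4_nt.TE
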