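import Pool.Agent.MP_88e4f4_nt.TE.Defs

set_option autoImplicit false

namespace Pool.Agent.MP_88e4f4_nt.TE

theorem e7_card (S : Finset ℕ) (a : ℕ) (hS : ∀ p ∈ S, Odd p ∧ 3 ≤ p ∧ p ≤ a) (ha : 3 ≤ a) :
    2 * S.card + 1 ≤ a := by
  have h : S.card ≤ (Finset.range ((a - 1) / 2)).card := by
    refine Finset.card_le_card_of_injOn (fun p => (p - 3) / 2) ?_ ?_
    · intro p hp
      obtain ⟨⟨k, hk⟩, h3, hpa⟩ := hS p hp
      have : (p - 3) / 2 < (a - 1) / 2 := by omega
      simpa using this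
    · intro p hp q hq hpq
      obtain ⟨⟨k, hk⟩, h3, hpa⟩ := hS p hp
      obtain ⟨⟨l, hl⟩, h3', hqa⟩ := hS q hq
      have hpq' : (p - 3) / 2 = (q - 3) / 2 := hpq
      omega
  rw [Finset.card_range] at h
  omega

theorem e7_sharp : ∀ S : Finset ℕ, (∀ p ∈ S, Odd p ∧ 3 ≤ p) → S.Nonempty →
    1 ≤ 4 * (S.card : ℝ) * (∏ p ∈ S, (1 - 1 / ((p : ℝ) - 1))) ^ 2 := by
  intro S
  induction S using Finset.induction_on_max with
  | empty => intro _ h; exact absurd h Finset.not_nonempty_empty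
  | insert a s hmax ih =>
    intro hS _
    have has : a ∉ s := fun h => lt_irrefl _ (hmax a h)
    have ha := hS a (Finset.mem_insert_self _ _)
    have hcard : 2 * (insert a s).card + 1 ≤ a := by
      refine e7_card (insert a s) a (fun p hp => ⟨(hS p hp).1, (hS p hp).2, ?_⟩) ha.2
      rcases Finset.mem_insert.1 hp with h | h
      · exact h.le
      · exact (hmax p h).le
    rw [Finset.card_insert_of_notMem has] at hcard
    rw [Finset.card_insert_of_notMem has, Finset.prod_insert has]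
    have ha' : (2 * ((s.card : ℝ) + 1) + 1) ≤ (a : ℝ) := by exact_mod_cast hcard
    have hk0 : (0 : ℝ) ≤ s.card := Nat.cast_nonneg _
    have hf : (2 * (s.card : ℝ) + 1) / (2 * (s.card : ℝ) + 2) ≤ 1 - 1 / ((a : ℝ) - 1) := by
      have h1 : 1 / ((a : ℝ) - 1) ≤ 1 / (2 * (s.card : ℝ) + 2) := by
        apply one_div_le_one_div_of_le
        · linarith
        · linarith
      have h2 : (2 * (s.card : ℝ) + 1) / (2 * (s.card : ℝ) + 2) = 1 - 1 / (2 * (s.card : ℝ) + 2) := by
        field_simp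
        ring
      rw [h2]
      linarith
    have hf0 : 0 ≤ (2 * (s.card : ℝ) + 1) / (2 * (s.card : ℝ) + 2) := by positivity
    have hf2 := pow_le_pow_left₀ hf0 hf 2
    push_cast
    rcases Finset.eq_empty_or_nonempty s with h | h
    · subst h
      simp only [Finset.card_empty, Nat.cast_zero, mul_zero, zero_add, Finset.prod_empty,
        mul_one] at hf2 ⊢
      norm_num at hf2
      rw [inv_eq_one_div] at hf2
      linarith
    · have hih := ih (fun p hp => hS p (Finset.mem_insert_of_mem hp)) h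
      set P := ∏ p ∈ s, (1 - 1 / ((p : ℝ) - 1)) with hP
      set k : ℝ := (s.card : ℝ) with hk
      rw [mul_pow]
      have hP2 : 0 ≤ P ^ 2 := sq_nonneg _
      have e1 : 4 * k * P ^ 2 ≤ 4 * (k + 1) * (((2 * k + 1) / (2 * k + 2)) ^ 2 * P ^ 2) := by
        have e2 : 4 * (k + 1) * (((2 * k + 1) / (2 * k + 2)) ^ 2 * P ^ 2) =
            ((2 * k + 1) ^ 2 / (k + 1)) * P ^ 2 := by
          have : k + 1 ≠ 0 := by positivity
          field_simp
          ring
        rw [e2]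
        apply mul_le_mul_of_nonneg_right _ hP2
        rw [le_div_iff₀ (by positivity)]
        nlinarith
      have e3 : 4 * (k + 1) * (((2 * k + 1) / (2 * k + 2)) ^ 2 * P ^ 2) ≤
          4 * (k + 1) * ((1 - 1 / ((a : ℝ) - 1)) ^ 2 * P ^ 2) := by
        apply mul_le_mul_of_nonneg_left _ (by positivity)
        exact mul_le_mul_of_nonneg_right hf2 hP2
      linarith

theorem e7_pf {m p : ℕ} (hm : Even m) (h4 : 4 ≤ m) (hp : p ∈ (m - 1).primeFactors) :
    Odd p ∧ 3 ≤ p := by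
  have hpp := Nat.prime_of_mem_primeFactors hp
  have hpd := Nat.dvd_of_mem_primeFactors hp
  have hodd : Odd (m - 1) := by
    obtain ⟨k, hk⟩ := hm
    exact ⟨k - 1, by omega⟩
  have hpo : Odd p := Odd.of_dvd_nat hodd hpd
  refine ⟨hpo, ?_⟩
  have h2 := hpp.two_le
  obtain ⟨k, hk⟩ := hpo
  omega

/-- [TE-E7] PROOF. Induction on the number of elements, removing the maximum `p` of `S`:
a set of `k` odd numbers `≥ 3` has maximum `≥ 2 k + 1`, and `1 - 1/(p-1)` is increasing in `p`, so the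
product is at least `a_k = ∏_{j=1}^k (2j-1)/(2j)`; and `a_k² ≥ 1/(4k)` because
`(2k+1)² ≥ 4k(k+1)`. -/
theorem prod_odd_ge (S : Finset ℕ) (hS : ∀ p ∈ S, Odd p ∧ 3 ≤ p) :
    1 ≤ 4 * ((S.card : ℝ) + 1) * (∏ p ∈ S, (1 - 1 / ((p : ℝ) - 1))) ^ 2 := by
  rcases Finset.eq_empty_or_nonempty S with h | h
  · subst h
    norm_num
  · have h1 := e7_sharp S hS h
    have h2 := sq_nonneg (∏ p ∈ S, (1 - 1 / ((p : ℝ) - 1)))
    linarith

/-- [TE-E7] PROOF. all factors are in `[0,1]` (the prime factors of the odd number `m - 1` are `≥ 3`). -/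
theorem dl_mem (m : ℕ) (hm : Even m) (h4 : 4 ≤ m) : 0 < dl (m - 1) ∧ dl (m - 1) ≤ 1 := by
  have hf : ∀ p ∈ (m - 1).primeFactors, 0 < (1 - 1 / ((p : ℝ) - 1)) ∧
      (1 - 1 / ((p : ℝ) - 1)) ≤ 1 := by
    intro p hp
    have h3 : (3 : ℝ) ≤ p := by exact_mod_cast (e7_pf hm h4 hp).2
    have e1 : 0 ≤ 1 / ((p : ℝ) - 1) := by
      apply div_nonneg <;> linarith
    have e2 : 1 / ((p : ℝ) - 1) < 1 := by
      rw [div_lt_one (by linarith)]
      linarith
    constructor <;> linarith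
  exact ⟨Finset.prod_pos fun p hp => (hf p hp).1,
    Finset.prod_le_one (fun p hp => (hf p hp).1.le) fun p hp => (hf p hp).2⟩

/-- [TE-E7] PROOF. `prod_odd_ge` in the sharper form `1 ≤ 4 k (∏ ...)²` for `k ≥ 1`
(`r.primeFactors`, `k` its number of elements), `3 ^ k ≤ ∏ p ≤ r < m`, so
`k ≤ log m / log 3 ≤ log m`; hence `dl r ≥ 1/(2 √k) ≥ 1/(2 √(log m))`. (`m ≥ 4` is even, `r = m - 1 ≥ 3`
is odd; `1.0986 < log 3`.) Here: `√(log m)/2 ≤ dl (m-1) * log m`. -/
theorem dl_bound (m : ℕ) (hm : Even m) (h4 : 4 ≤ m) :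
    Real.sqrt (Real.log m) / 2 ≤ dl (m - 1) * Real.log m := by
  have hr : 1 < m - 1 := by omega
  have hne : (m - 1).primeFactors.Nonempty := Nat.nonempty_primeFactors.2 hr
  have h1 := e7_sharp (m - 1).primeFactors (fun p hp => e7_pf hm h4 hp) hne
  have hm0 : (0 : ℝ) < m := by exact_mod_cast (by omega : 0 < m)
  have h3 : 3 ^ (m - 1).primeFactors.card ≤ m := by
    have e1 : ∏ p ∈ (m - 1).primeFactors, p ≤ m - 1 :=
      Nat.le_of_dvd (by omega) (Nat.prod_primeFactors_dvd _)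
    have e2 : 3 ^ (m - 1).primeFactors.card ≤ ∏ p ∈ (m - 1).primeFactors, p := by
      rw [← Finset.prod_const]
      exact Finset.prod_le_prod (fun _ _ => by norm_num) (fun p hp => (e7_pf hm h4 hp).2)
    omega
  have hk : ((m - 1).primeFactors.card : ℝ) ≤ Real.log m := by
    have e1 : Real.log ((3 : ℝ) ^ (m - 1).primeFactors.card) ≤ Real.log m := by
      apply Real.log_le_log (by positivity)
      exact_mod_cast h3
    rw [Real.log_pow] at e1
    have e2 : 1 ≤ Real.log 3 := by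
      rw [Real.le_log_iff_exp_le (by norm_num)]
      have := Real.exp_one_lt_d9
      linarith
    have e3 : (0 : ℝ) ≤ ((m - 1).primeFactors.card : ℝ) := Nat.cast_nonneg _
    nlinarith
  have hlog : 0 ≤ Real.log m := le_trans (Nat.cast_nonneg _) hk
  have hdl := (dl_mem m hm h4).1
  have hdl' : dl (m - 1) = ∏ p ∈ (m - 1).primeFactors, (1 - 1 / ((p : ℝ) - 1)) := rfl
  rw [← hdl'] at h1
  have h5 : 1 ≤ 4 * Real.log m * dl (m - 1) ^ 2 := by
    have := mul_le_mul_of_nonneg_right hk (sq_nonneg (dl (m - 1)))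
    linarith
  have h6 : Real.sqrt (Real.log m) ≤ 2 * (dl (m - 1) * Real.log m) := by
    rw [Real.sqrt_le_iff]
    refine ⟨by positivity, ?_⟩
    have e : (2 * (dl (m - 1) * Real.log m)) ^ 2 =
        (4 * Real.log m * dl (m - 1) ^ 2) * Real.log m := by ring
    rw [e]
    nlinarith
  linarith

end Pool.Agent.MP_88e4f4_nt.TE
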