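import Pool.Agent.MP_88e4f4_nt.TE.E4
import Pool.Agent.MP_88e4f4_nt.TE.E5
import Pool.Agent.MP_88e4f4_nt.TE.E7
import Pool.Agent.MP_88e4f4_nt.TQ.Y8
import Pool.Agent.MP_88e4f4_nt.TK.W2

set_option autoImplicit false

namespace Pool.Agent.MP_88e4f4_nt.TE

open Pool.Agent.MP_88e4f4_nt.GB Pool.Agent.MP_88e4f4_nt.TK Pool.Agent.MP_88e4f4_nt.TQ Finset

/-- The exceptional bases up to `Y`. -/
def exc (m Y : ℕ) : Set ℕ := {y : ℕ | y ≤ Y ∧ ∃ x n : ℕ, Sol x y m n}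

theorem exc_sub (m Y : ℕ) : exc m Y ⊆ ((Icc 1 Y : Finset ℕ) : Set ℕ) := by
  rintro y ⟨h1, x, n, h2⟩
  have := h2.1
  simp only [coe_Icc, Set.mem_Icc]
  omega

theorem exc_finite (m Y : ℕ) : (exc m Y).Finite := (finite_toSet _).subset (exc_sub m Y)

theorem exc_card_le (m Y : ℕ) : (exc m Y).ncard ≤ Y := by
  have h := Set.ncard_le_ncard (exc_sub m Y) (finite_toSet _)
  rw [Set.ncard_coe_finset, Nat.card_Icc] at h
  omega

theorem exc_prime {κ m x y n q : ℕ} (hκ : 1 ≤ κ) (hm : 400 * κ ^ 3 ≤ m) (h : Sol x y m n)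
    (hq : q.Prime) (hqy : q ∣ y) (hco : Nat.Coprime (m - 1) (q * (q - 1))) (hyq : y ≤ q ^ κ) :
    y < (6 * κ) ^ (20 * κ) := by
  refine y_bound_q hκ hm h (le_gcd_pow h hqy (fun p hp hpq => Or.inr ?_) hyq)
  rw [(Nat.prime_dvd_prime_iff_eq hp hq).1 hpq]
  exact hco

theorem count_one : ∃ C : ℝ, 0 < C ∧ ∀ m : ℕ, Even m → 4 ≤ m → ∀ k : ℕ, 400 * (2 ^ k) ^ 3 ≤ m →
    ∃ Y₀ : ℕ, ∀ Y : ℕ, Y₀ ≤ Y →
      ((exc m Y).ncard : ℝ) ≤ C * Real.exp (-(k * dl (m - 1) / 2)) * Y := by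
  obtain ⟨C₁, hC₁, hs⟩ := sieve_upper
  obtain ⟨C₂, hp⟩ := primes_lower
  refine ⟨C₁ * Real.exp C₂ + 1, by positivity, fun m hme hm4 k hk => ?_⟩
  obtain ⟨κ, hκ⟩ : ∃ κ, κ = 2 ^ k := ⟨_, rfl⟩
  have hκ1 : 1 ≤ κ := by
    rw [hκ]
    exact Nat.one_le_two_pow
  have hr : Odd (m - 1) := Nat.Even.sub_odd (by omega) hme odd_one
  obtain ⟨Y₁, hY₁⟩ := hp (m - 1) hr (by omega) k
  obtain ⟨B, hB⟩ : ∃ B, B = (6 * κ) ^ (20 * κ) := ⟨_, rfl⟩
  obtain ⟨E, hE⟩ : ∃ E, E = Real.exp (-(k * dl (m - 1) / 2)) := ⟨_, rfl⟩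
  have hE0 : 0 < E := by
    rw [hE]
    exact Real.exp_pos _
  refine ⟨max (max Y₁ 2) ⌈(B : ℝ) / E⌉₊, fun Y hY => ?_⟩
  have hYa : Y₁ ≤ Y := (le_max_left _ _).trans ((le_max_left _ _).trans hY)
  have hYb : 2 ≤ Y := (le_max_right _ _).trans ((le_max_left _ _).trans hY)
  have hYc : (B : ℝ) / E ≤ Y := (Nat.le_ceil _).trans (by
    exact_mod_cast (le_max_right _ _).trans hY)
  have hBE : (B : ℝ) ≤ E * Y := by
    rw [div_le_iff₀ hE0] at hYc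
    linarith
  rw [← hE]
  obtain ⟨P, hP⟩ : ∃ P, P = QQ (m - 1) k Y := ⟨_, rfl⟩
  have hsub : exc m Y ⊆ ((range B ∪ (Icc 1 Y).filter
      (fun y => ∀ q ∈ P, ¬ q ∣ y) : Finset ℕ) : Set ℕ) := by
    rintro y ⟨h1, x, n, h2⟩
    rw [mem_coe, mem_union]
    by_cases hyB : y < B
    · exact Or.inl (mem_range.2 hyB)
    · right
      rw [mem_filter, mem_Icc]
      refine ⟨⟨by have := h2.1; omega, h1⟩, ?_⟩
      intro q hq hqy
      rw [hP, QQ, mem_filter] at hq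
      obtain ⟨-, hq1, hq2, hq3⟩ := hq
      have h3 := exc_prime hκ1 (by rw [hκ]; exact hk) h2 hq1 hqy hq2 (by
        rw [hκ]
        exact h1.trans hq3)
      rw [← hB] at h3
      exact hyB h3
  have h1 := Set.ncard_le_ncard hsub (finite_toSet _)
  rw [Set.ncard_coe_finset] at h1
  have h2 := h1.trans (card_union_le _ _)
  rw [card_range] at h2
  have h3 := hs Y P hYb (by
    intro q hq
    rw [hP, QQ, mem_filter, mem_Icc] at hq
    exact ⟨hq.2.1, hq.1.2⟩)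
  have h4 := hY₁ Y hYa
  rw [← hP] at h4
  have h5 : Real.exp (-∑ q ∈ P, (1 : ℝ) / q) ≤ Real.exp C₂ * E := by
    rw [hE, ← Real.exp_add]
    exact Real.exp_le_exp.2 (by linarith)
  have h6 : ((exc m Y).ncard : ℝ) ≤ B + (((Icc 1 Y).filter
      (fun y => ∀ q ∈ P, ¬ q ∣ y)).card : ℝ) := by exact_mod_cast h2
  have h7 : C₁ * Y * Real.exp (-∑ q ∈ P, (1 : ℝ) / q) ≤
      C₁ * Y * (Real.exp C₂ * E) := mul_le_mul_of_nonneg_left h5 (by positivity)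
  calc ((exc m Y).ncard : ℝ) ≤ E * Y + C₁ * Y * (Real.exp C₂ * E) := by linarith
    _ = (C₁ * Real.exp C₂ + 1) * E * Y := by ring

theorem count_pow : ∃ C : ℝ, 0 < C ∧ ∀ m : ℕ, Even m → 4 ≤ m → ∃ Y₀ : ℕ, ∀ Y : ℕ, Y₀ ≤ Y →
    ((exc m Y).ncard : ℝ) ≤ C * (m : ℝ) ^ (-(dl (m - 1) / 5)) * Y := by
  obtain ⟨C, hC, h⟩ := count_one
  refine ⟨C * Real.exp 2 + 400, by positivity, fun m hme hm4 => ?_⟩
  obtain ⟨hd0, hd1⟩ := dl_mem m hme hm4
  obtain ⟨δ, hδ⟩ : ∃ δ, δ = dl (m - 1) := ⟨_, rfl⟩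
  rw [← hδ] at hd0 hd1 ⊢
  have hm0 : (0 : ℝ) < m := by exact_mod_cast (by omega : 0 < m)
  have hm1 : (1 : ℝ) ≤ m := by exact_mod_cast (by omega : 1 ≤ m)
  have hlog0 : 0 ≤ Real.log m := Real.log_nonneg hm1
  have hpw : (m : ℝ) ^ (-(δ / 5)) = Real.exp (-(δ * Real.log m / 5)) := by
    rw [Real.rpow_def_of_pos hm0]
    congr 1
    ring
  have hl2 := Real.log_two_lt_d9
  rcases Nat.lt_or_ge m 400 with hlt | hge
  · refine ⟨0, fun Y _ => ?_⟩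
    have h1 : ((exc m Y).ncard : ℝ) ≤ Y := by exact_mod_cast exc_card_le m Y
    have h2 : 1 ≤ 400 * (m : ℝ) ^ (-(δ / 5)) := by
      have h3 : (m : ℝ) ^ (-(1 : ℝ)) ≤ (m : ℝ) ^ (-(δ / 5)) :=
        Real.rpow_le_rpow_of_exponent_le hm1 (by linarith)
      have h4 : (m : ℝ) ≤ 400 := by exact_mod_cast hlt.le
      rw [Real.rpow_neg_one] at h3
      have h5 : 1 / 400 ≤ (m : ℝ)⁻¹ := by
        rw [← one_div]
        exact one_div_le_one_div_of_le hm0 h4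
      linarith
    have h6 : 0 ≤ C * Real.exp 2 * (m : ℝ) ^ (-(δ / 5)) := by positivity
    have hY0 : (0 : ℝ) ≤ Y := Nat.cast_nonneg Y
    calc ((exc m Y).ncard : ℝ) ≤ 1 * Y := by linarith
      _ ≤ ((C * Real.exp 2 + 400) * (m : ℝ) ^ (-(δ / 5))) * Y := by
          refine mul_le_mul_of_nonneg_right ?_ hY0
          linarith
  · obtain ⟨k, hk⟩ : ∃ k, k = Nat.log 8 (m / 400) := ⟨_, rfl⟩
    have hdiv : m / 400 ≠ 0 := by
      have := Nat.div_pos hge (by norm_num)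
      omega
    have hk1 : 8 ^ k ≤ m / 400 := by
      rw [hk]
      exact Nat.pow_log_le_self 8 hdiv
    have hk2 : m / 400 < 8 ^ (k + 1) := by
      rw [hk]
      exact Nat.lt_pow_succ_log_self (by norm_num) _
    have hk3 : 400 * (2 ^ k) ^ 3 ≤ m := by
      have e : (2 ^ k) ^ 3 = 8 ^ k := by
        rw [← pow_mul, mul_comm, pow_mul]
        norm_num
      rw [e]
      have := Nat.mul_le_of_le_div 400 (8 ^ k) m hk1
      omega
    have hk4 : m < 8 ^ (k + 1) * 400 := (Nat.div_lt_iff_lt_mul (by norm_num)).1 hk2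
    obtain ⟨Y₀, hY₀⟩ := h m hme hm4 k hk3
    refine ⟨Y₀, fun Y hY => ?_⟩
    have h1 := hY₀ Y hY
    rw [← hδ] at h1
    have hlogm : Real.log m ≤ (k + 1) * (3 * Real.log 2) + 9 * Real.log 2 := by
      have h2 : (m : ℝ) ≤ 8 ^ (k + 1) * 512 := by
        have h3 : m ≤ 8 ^ (k + 1) * 512 := hk4.le.trans (Nat.mul_le_mul_left _ (by norm_num))
        exact_mod_cast h3
      have h3 := Real.log_le_log hm0 h2
      rw [Real.log_mul (by positivity) (by norm_num), Real.log_pow] at h3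
      have e1 : Real.log 8 = 3 * Real.log 2 := by
        rw [show (8 : ℝ) = 2 ^ 3 by norm_num, Real.log_pow]
        norm_num
      have e2 : Real.log 512 = 9 * Real.log 2 := by
        rw [show (512 : ℝ) = 2 ^ 9 by norm_num, Real.log_pow]
        norm_num
      rw [e1, e2] at h3
      push_cast at h3
      exact h3
    have hkey : δ * Real.log m / 5 - 2 ≤ k * δ / 2 := by
      have hk0 : (0 : ℝ) ≤ k := Nat.cast_nonneg k
      have h2 : Real.log m / 5 - k / 2 ≤ 2 := by nlinarith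
      have h3 : δ * (Real.log m / 5 - k / 2) ≤ 2 := by nlinarith
      linarith
    have h2 : Real.exp (-(k * δ / 2)) ≤ Real.exp 2 * (m : ℝ) ^ (-(δ / 5)) := by
      rw [hpw, ← Real.exp_add]
      exact Real.exp_le_exp.2 (by linarith)
    have hY0 : (0 : ℝ) ≤ Y := Nat.cast_nonneg Y
    have h6 : 0 ≤ 400 * (m : ℝ) ^ (-(δ / 5)) := by positivity
    calc ((exc m Y).ncard : ℝ) ≤ C * Real.exp (-(k * δ / 2)) * Y := h1
      _ ≤ C * (Real.exp 2 * (m : ℝ) ^ (-(δ / 5))) * Y := by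
          refine mul_le_mul_of_nonneg_right ?_ hY0
          exact mul_le_mul_of_nonneg_left h2 hC.le
      _ ≤ (C * Real.exp 2 + 400) * (m : ℝ) ^ (-(δ / 5)) * Y := by
          refine mul_le_mul_of_nonneg_right ?_ hY0
          linarith

theorem pow_le_sqrt {m : ℕ} (hme : Even m) (hm4 : 4 ≤ m) :
    (m : ℝ) ^ (-(dl (m - 1) / 5)) ≤ Real.exp (-(Real.sqrt (Real.log m) / 10)) := by
  have hm0 : (0 : ℝ) < m := by exact_mod_cast (by omega : 0 < m)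
  rw [Real.rpow_def_of_pos hm0]
  have h := dl_bound m hme hm4
  exact Real.exp_le_exp.2 (by linarith)

end Pool.Agent.MP_88e4f4_nt.TE
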